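import Pool.Agent.Lib.MP_140312_al_Comm.Criterion

/-!
# Chains of halfspaces
-/

namespace Pool.Agent.Lib.MP_140312_al_Comm

open scoped Pointwise

open Pool.Agent.Lib.MP_140312_al Pool.Agent.Lib.MP_140312_al_Chain

variable {V : Type*} {G : Type*} [Group G] [MulAction G V] {X : SimpleGraph V}

/-- Configurations of bounded size based in a convex cocompact set fall into finitely many
classes. -/
lemma ConvexCocompactOn.classify (hG : GeometricAction G X) (hc : X.Connected)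
    {M : Subgroup G} {Z : Set V} (hM : ConvexCocompactOn X M Z) {κ : Type*} [Finite κ]
    (a₀ : κ) (R : ℕ) : ∃ (N : ℕ) (φ : (κ → V) → Fin N), ∀ c c' : κ → V, c a₀ ∈ Z → c' a₀ ∈ Z →
      (∀ a, X.dist (c a₀) (c a) ≤ R) → (∀ a, X.dist (c' a₀) (c' a) ≤ R) → φ c = φ c' →
      ∃ g ∈ M, ∀ a, g • c a = c' a := by
  classical
  obtain ⟨D, hD, hcov⟩ := hM.cocompact
  set B : Set V := ⋃ x ∈ D, {y | X.dist x y ≤ R} with hB
  have hBf : B.Finite := hD.biUnion fun x _ => ball_finite hG hc x R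
  have : Finite B := hBf
  have : Finite (Option (κ → B)) := inferInstance
  have hP : ∀ c : κ → V, ∃ g ∈ M, c a₀ ∈ Z ∧ (∀ a, X.dist (c a₀) (c a) ≤ R) →
      ∀ a, g • c a ∈ B := by
    intro c
    by_cases hcc : c a₀ ∈ Z ∧ (∀ a, X.dist (c a₀) (c a) ≤ R)
    · obtain ⟨g, hgM, hg⟩ := hcov _ hcc.1
      refine ⟨g, hgM, fun _ a => ?_⟩
      simp only [hB, Set.mem_iUnion]
      refine ⟨g • c a₀, hg, ?_⟩
      show X.dist _ _ ≤ R
      rw [dist_smul hG hc]
      exact hcc.2 a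
    · exact ⟨1, one_mem _, fun h => absurd h hcc⟩
  choose g hgM hg using hP
  let φ : (κ → V) → Option (κ → B) := fun c =>
    if hcc : c a₀ ∈ Z ∧ (∀ a, X.dist (c a₀) (c a) ≤ R) then
      some fun a => ⟨g c • c a, hg c hcc a⟩ else none
  refine ⟨_, fun c => Finite.equivFin _ (φ c), fun c c' h1 h1' h2 h2' heq => ?_⟩
  have heq' : φ c = φ c' := (Finite.equivFin _).injective heq
  simp only [φ, dif_pos (And.intro h1 h2), dif_pos (And.intro h1' h2'), Option.some.injEq] at heq'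
  refine ⟨(g c')⁻¹ * g c, mul_mem (inv_mem (hgM c')) (hgM c), fun a => ?_⟩
  have := congrArg Subtype.val (congrFun heq' a)
  simp only at this
  rw [mul_smul, this, inv_smul_smul]

lemma convexCocompactOn_top (hG : GeometricAction G X) (hc : X.Connected) :
    ConvexCocompactOn X (⊤ : Subgroup G) (Set.univ : Set V) := by
  obtain ⟨x⟩ := hc.nonempty
  obtain ⟨D, hD, hcov⟩ := hG.cocompact
  exact ⟨⟨x, trivial⟩, fun _ _ _ _ _ _ => trivial, fun _ _ _ _ => trivial, D, hD, fun v _ => by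
    obtain ⟨g, hg⟩ := hcov v
    exact ⟨g, trivial, hg⟩⟩

/-- A long chain of halfspaces preserved by an element of infinite order gives `ℤ × ℤ`. -/
theorem exists_chain_bound (h : IsMedianGraph X) (hG : GeometricAction G X) (z : G)
    (hz : ∀ m : ℕ, 0 < m → z ^ m ≠ 1) : ∃ R : ℕ, ∀ A : ℕ → Set V,
      (∀ k ≤ R, IsHalfspace X (A k)) → (∀ k l, k < l → l ≤ R → A l ⊆ A k ∧ A l ≠ A k) →
      (∀ k ≤ R, ∀ v, z • v ∈ A k ↔ v ∈ A k) →
      ∃ φ : Multiplicative (ℤ × ℤ) →* G, Function.Injective φ := by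
  classical
  have hc := h.connected
  obtain ⟨x₀⟩ := hc.nonempty
  obtain ⟨s, hs⟩ := exists_stab_bound hG
  obtain ⟨N, φ, hφ⟩ := (convexCocompactOn_top hG hc).classify hG hc (κ := Fin 3) 0
    (X.dist x₀ (z • x₀) + 1)
  refine ⟨N * s, fun A hA hchain hzA => ?_⟩
  -- gates
  have hy : ∀ k, ∃ y w : V, k ≤ N * s → X.Adj y w ∧ halfspace X w y = A k ∧
      X.dist y (z • y) ≤ X.dist x₀ (z • x₀) := by
    intro k
    by_cases hk : k ≤ N * s
    · obtain ⟨x, y, hxy, hAxy⟩ := hA k hk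
      have hne : (Rows X 1 (fun _ => A k)).Nonempty := ⟨y, (mem_rows_one _ _).2
        ⟨x, hxy.symm, hAxy.symm⟩⟩
      obtain ⟨p, hp⟩ := exists_gate h (gconvex_rows h 1 (fun _ => A k)) hne x₀
      obtain ⟨w, hw, hwA⟩ := (mem_rows_one _ _).1 hp.1
      refine ⟨p, w, fun _ => ⟨hw, hwA, ?_⟩⟩
      exact hp.lipschitz h (hp.smul hG hc z fun v =>
        smul_rows hG hc 1 _ _ z (fun _ _ v => hzA k hk v) v)
    · exact ⟨x₀, x₀, fun h => absurd h hk⟩
  choose y w hyw using hy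
  let c : ℕ → Fin 3 → V := fun k => ![y k, w k, z • y k]
  have hcR : ∀ k ≤ N * s, ∀ a, X.dist (c k 0) (c k a) ≤ X.dist x₀ (z • x₀) + 1 := by
    intro k hk a
    obtain ⟨h1, h2, h3⟩ := hyw k hk
    fin_cases a
    · simp
    · have := SimpleGraph.dist_eq_one_iff_adj.2 h1
      show X.dist (y k) (w k) ≤ _
      omega
    · show X.dist (y k) (z • y k) ≤ _
      omega
  obtain ⟨cls, _, hcls⟩ := Finset.exists_lt_card_fiber_of_mul_lt_card_of_maps_to
    (s := Finset.range (N * s + 1)) (t := (Finset.univ : Finset (Fin N)))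
    (f := fun k => φ (c k)) (n := s) (fun _ _ => Finset.mem_univ _) (by simp)
  set T := (Finset.range (N * s + 1)).filter (fun k => φ (c k) = cls) with hT
  have hTmem : ∀ k, k ∈ T ↔ k ≤ N * s ∧ φ (c k) = cls := by
    intro k
    rw [hT, Finset.mem_filter, Finset.mem_range]
    omega
  have hTne : T.Nonempty := by
    rw [← Finset.card_pos]
    omega
  obtain ⟨k₀, hk₀⟩ := hTne
  have hg : ∀ k, ∃ g : G, k ∈ T → ∀ a, g • c k₀ a = c k a := by
    intro k
    by_cases hk : k ∈ T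
    · obtain ⟨g, _, hg⟩ := hφ (c k₀) (c k) trivial trivial (hcR k₀ ((hTmem k₀).1 hk₀).1)
        (hcR k ((hTmem k).1 hk).1) (((hTmem k₀).1 hk₀).2.trans ((hTmem k).1 hk).2.symm)
      exact ⟨g, fun _ => hg⟩
    · exact ⟨1, fun h => absurd h hk⟩
  choose g hg using hg
  -- pigeonhole
  have hfix : {u : G | u • y k₀ = y k₀}.Finite := hG.finite_stabilizer _
  obtain ⟨k₁, hk₁, k₂, hk₂, hne, heq⟩ := Finset.exists_ne_map_eq_of_card_lt_of_maps_to
    (s := T) (t := hfix.toFinset) (f := fun k => z⁻¹ * (g k)⁻¹ * z * g k) (by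
      rw [← Set.ncard_eq_toFinset_card _ hfix]
      exact lt_of_le_of_lt (hs _) hcls) (by
      intro k hk
      rw [Finset.mem_coe] at hk
      rw [Finset.mem_coe, Set.Finite.mem_toFinset]
      have h0 : g k • y k₀ = y k := hg k hk 0
      have h2 : g k • z • y k₀ = z • y k := hg k hk 2
      show (z⁻¹ * (g k)⁻¹ * z * g k) • y k₀ = y k₀
      rw [mul_smul, h0, mul_smul, mul_smul, ← h2, inv_smul_smul, inv_smul_smul])
  obtain ⟨i, hi, j, hj, hij, heq⟩ : ∃ i ∈ T, ∃ j ∈ T, i < j ∧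
      z⁻¹ * (g i)⁻¹ * z * g i = z⁻¹ * (g j)⁻¹ * z * g j := by
    rcases lt_or_gt_of_ne hne with hlt | hlt
    · exact ⟨k₁, hk₁, k₂, hk₂, hlt, heq⟩
    · exact ⟨k₂, hk₂, k₁, hk₁, hlt, heq.symm⟩
  have hcomm : z * (g j * (g i)⁻¹) = (g j * (g i)⁻¹) * z := by
    have h1 : (g i)⁻¹ * z * g i = (g j)⁻¹ * z * g j := by
      have := congrArg (fun u => z * u) heq
      simpa [mul_assoc] using this
    calc z * (g j * (g i)⁻¹) = g j * ((g j)⁻¹ * z * g j) * (g i)⁻¹ := by group
      _ = g j * ((g i)⁻¹ * z * g i) * (g i)⁻¹ := by rw [h1]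
      _ = (g j * (g i)⁻¹) * z := by group
  have hiN := ((hTmem i).1 hi).1
  have hjN := ((hTmem j).1 hj).1
  have hcA : ∀ v, (g j * (g i)⁻¹) • v ∈ A j ↔ v ∈ A i := by
    intro v
    have h0 : (g j * (g i)⁻¹) • y i = y j := by
      have e1 : g i • y k₀ = y i := hg i hi 0
      have e2 : g j • y k₀ = y j := hg j hj 0
      rw [mul_smul, ← e1, inv_smul_smul, e2]
    have h1 : (g j * (g i)⁻¹) • w i = w j := by
      have e1 : g i • w k₀ = w i := hg i hi 1
      have e2 : g j • w k₀ = w j := hg j hj 1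
      rw [mul_smul, ← e1, inv_smul_smul, e2]
    have h2 := smul_halfspace_iff hG hc (g j * (g i)⁻¹) (w i) (y i) (A := A j)
      (by rw [h1, h0, (hyw j hjN).2.1]) v
    rw [h2, (hyw i hiN).2.1]
  obtain ⟨hsub, hne'⟩ := hchain i j hij hjN
  obtain ⟨v₀, hv₀, hv₀'⟩ : ∃ v₀ ∈ A i, v₀ ∉ A j := by
    by_contra hcon
    push Not at hcon
    exact hne' (hsub.antisymm hcon)
  refine z2_of_commute hcomm (A i) (hzA i hiN) (fun v hv => hsub ((hcA v).2 hv)) v₀ hv₀ ?_ hz
  rwa [← hcA, smul_inv_smul]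

/-- A Mirsky type statement: a large finite set of halfspaces, pairwise nested or crossing,
contains a long chain. -/
lemma exists_chain {d : ℕ} (hd : DimLE X d) : ∀ (m : ℕ) (𝓢 : Set (Set V)), 𝓢.Finite →
    (∀ A ∈ 𝓢, IsHalfspace X A) → (∀ A ∈ 𝓢, ∀ B ∈ 𝓢, A ⊆ B ∨ B ⊆ A ∨ Crossing A B) →
    d * m < 𝓢.ncard → ∃ A : ℕ → Set V, (∀ k ≤ m, A k ∈ 𝓢) ∧
      ∀ k l, k < l → l ≤ m → A l ⊆ A k ∧ A l ≠ A k := by
  classical
  intro m
  induction m with
  | zero =>
    intro 𝓢 hfin hh hcr hcard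
    have hne : 𝓢.Nonempty := by
      rw [← Set.ncard_pos hfin]
      omega
    obtain ⟨A, hA⟩ := hne
    exact ⟨fun _ => A, fun _ _ => hA, fun k l hkl hl => by omega⟩
  | succ m ih =>
    intro 𝓢 hfin hh hcr hcard
    set Min : Set (Set V) := {A | A ∈ 𝓢 ∧ ∀ B ∈ 𝓢, B ⊆ A → B = A} with hMin
    have hMinsub : Min ⊆ 𝓢 := fun A hA => hA.1
    have hMinfin : Min.Finite := hfin.subset hMinsub
    have hMincard : Min.ncard ≤ d := by
      by_contra hcon
      push Not at hcon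
      obtain ⟨T, hT, hTcard⟩ := Set.exists_subset_card_eq (n := d + 1) (s := Min) (by omega)
      have hTfin : T.Finite := hMinfin.subset hT
      have hTcard' : hTfin.toFinset.card = d + 1 := by
        rw [← Set.ncard_eq_toFinset_card _ hTfin, hTcard]
      let o := hTfin.toFinset.equivFinOfCardEq hTcard'
      have hmem : ∀ k, ((o.symm k : hTfin.toFinset) : Set V) ∈ T := fun k =>
        hTfin.mem_toFinset.1 (o.symm k).2
      choose x y hxy hAxy using fun k => hh _ (hMinsub (hT (hmem k)))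
      obtain ⟨k, l, hkl, hn⟩ := hd x y hxy
      have hne : ((o.symm k : hTfin.toFinset) : Set V) ≠ (o.symm l : hTfin.toFinset) := by
        intro h1
        exact hkl (o.symm.injective (Subtype.ext h1))
      rw [← hAxy k, ← hAxy l] at hn
      rcases hcr _ (hMinsub (hT (hmem k))) _ (hMinsub (hT (hmem l))) with h1 | h1 | h1
      · exact hne ((hT (hmem l)).2 _ (hMinsub (hT (hmem k))) h1)
      · exact hne ((hT (hmem k)).2 _ (hMinsub (hT (hmem l))) h1).symm
      · exact hn h1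
    obtain ⟨A, hA, hAch⟩ := ih (𝓢 \ Min) (hfin.subset Set.sdiff_subset)
      (fun A hA => hh A hA.1) (fun A hA B hB => hcr A hA.1 B hB.1) (by
        have h1 := Set.ncard_sdiff_add_ncard_of_subset hMinsub hfin
        rw [Nat.mul_succ] at hcard
        omega)
    obtain ⟨B, hB, hBA, hne⟩ : ∃ B ∈ 𝓢, B ⊆ A m ∧ B ≠ A m := by
      by_contra hcon
      push Not at hcon
      exact (hA m le_rfl).2 ⟨(hA m le_rfl).1, hcon⟩
    refine ⟨fun k => if k ≤ m then A k else B, fun k hk => ?_, fun k l hkl hl => ?_⟩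
    · by_cases hk' : k ≤ m
      · simp only [if_pos hk']
        exact (hA k hk').1
      · simp only [if_neg hk']
        exact hB
    · have hk' : k ≤ m := by omega
      by_cases hl' : l ≤ m
      · simp only [if_pos hk', if_pos hl']
        exact hAch k l hkl hl'
      · simp only [if_pos hk', if_neg hl']
        rcases Nat.lt_or_ge k m with hlt | hge
        · obtain ⟨h1, h2⟩ := hAch k m hlt le_rfl
          refine ⟨hBA.trans h1, fun h3 => ?_⟩
          subst h3
          exact h2 (h1.antisymm hBA)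
        · obtain rfl : k = m := by omega
          exact ⟨hBA, hne⟩

end Pool.Agent.Lib.MP_140312_al_Comm
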