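import Pool.Agent.Lib.MP_140312_al_Comm.Chains

/-!
# Cosets and halfspaces near a convex cocompact set
-/

namespace Pool.Agent.Lib.MP_140312_al_Comm

open scoped Pointwise

open Pool.Agent.Lib.MP_140312_al Pool.Agent.Lib.MP_140312_al_Chain

variable {V : Type*} {G : Type*} [Group G] [MulAction G V] {X : SimpleGraph V}

/-! ### Translates of halfspaces -/

lemma smul_halfspace (hG : GeometricAction G X) (hc : X.Connected) (g : G) (x y : V) :
    g • halfspace X x y = halfspace X (g • x) (g • y) := by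
  ext v
  rw [Set.mem_smul_set_iff_inv_smul_mem, ← smul_mem_halfspace hG hc g, smul_inv_smul]

lemma isHalfspace_smul (hG : GeometricAction G X) (hc : X.Connected) {A : Set V}
    (hA : IsHalfspace X A) (g : G) : IsHalfspace X (g • A) := by
  obtain ⟨x, y, hxy, rfl⟩ := hA
  exact ⟨g • x, g • y, (hG.adj_iff _ _ _).2 hxy, smul_halfspace hG hc g x y⟩

lemma isHalfspace_compl (h : IsMedianGraph X) {A : Set V} (hA : IsHalfspace X A) :
    IsHalfspace X Aᶜ := by
  obtain ⟨x, y, hxy, rfl⟩ := hA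
  exact ⟨y, x, hxy.symm, compl_halfspace h hxy⟩

lemma mem_commonStab_singleton {A : Set V} {k : G} : k ∈ commonStab G {A} ↔ k • A = A := by
  constructor
  · intro hk
    ext v
    rw [Set.mem_smul_set_iff_inv_smul_mem, ← hk A rfl, smul_inv_smul]
  · intro hk B hB v
    rw [Set.mem_singleton_iff] at hB
    subst hB
    conv_lhs => rw [← hk]
    rw [Set.smul_mem_smul_set_iff]

lemma stabilizer_eq (N : Subgroup G) (A : Set V) :
    MulAction.stabilizer N A = (commonStab G {A}).subgroupOf N := by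
  ext k
  rw [MulAction.mem_stabilizer_iff, Subgroup.mem_subgroupOf, mem_commonStab_singleton]
  rfl

lemma relIndex_ne_zero_iff_orbit (N : Subgroup G) (A : Set V) :
    (commonStab G {A}).relIndex N ≠ 0 ↔ (MulAction.orbit N A).Finite := by
  rw [Subgroup.relIndex, ← stabilizer_eq, MulAction.index_stabilizer]
  constructor
  · intro h1
    exact Set.finite_of_ncard_ne_zero h1
  · intro h1
    exact ((Set.ncard_pos h1).2 (MulAction.nonempty_orbit A)).ne'

/-! ### Finiteness of cosets -/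

/-- Finitely many cosets of `M` in its commensurator come close to `Z`. -/
lemma exists_finite_cosets (hG : GeometricAction G X) (hc : X.Connected) {M : Subgroup G}
    {Z : Set V} (hM : ConvexCocompactOn X M Z) (R : ℕ) : ∃ E : Set G, E.Finite ∧
      ∀ k ∈ Subgroup.Commensurable.commensurator M,
        (∃ z ∈ Z, ∃ z' ∈ Z, X.dist z (k • z') ≤ R) → ∃ e ∈ E, e⁻¹ * k ∈ M := by
  classical
  obtain ⟨F, hF, hFc⟩ := hM.cocompact
  set E₀ : Set G := {g | ∃ f ∈ F, ∃ f' ∈ F, X.dist f (g • f') ≤ R} with hE₀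
  have hE₀fin : E₀.Finite := by
    have h1 : E₀ ⊆ ⋃ f ∈ F, ⋃ f' ∈ F, {g : G | X.dist f' (g • f') ≤ X.dist f' f + R} := by
      rintro g ⟨f, hf, f', hf', hd⟩
      simp only [Set.mem_iUnion]
      refine ⟨f, hf, f', hf', ?_⟩
      show X.dist f' (g • f') ≤ _
      have : X.dist f' (g • f') ≤ X.dist f' f + X.dist f (g • f') := hc.dist_triangle
      omega
    refine (hF.biUnion fun f _ => hF.biUnion fun f' _ => ?_).subset h1
    exact finite_displacement hG hc f' _
  have hS : ∀ e : G, ∃ S : Set G, S.Finite ∧ (e ∈ Subgroup.Commensurable.commensurator M →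
      ∀ k ∈ M, ∃ s ∈ S, ∃ m ∈ M.map (MulAut.conj e).toMonoidHom ⊓ M, k = m * s) := by
    intro e
    by_cases he : e ∈ Subgroup.Commensurable.commensurator M
    · obtain ⟨S, hS, hSc⟩ := exists_coset_reps (mem_commensurator_iff.1 he).1
      exact ⟨S, hS, fun _ => hSc⟩
    · exact ⟨∅, Set.finite_empty, fun h => absurd h he⟩
  choose S hSfin hSc using hS
  refine ⟨⋃ e ∈ E₀, (fun s => s⁻¹ * e) '' S e, hE₀fin.biUnion fun e _ => (hSfin e).image _, ?_⟩
  rintro k hk ⟨z, hz, z', hz', hd⟩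
  obtain ⟨m, hm, hmF⟩ := hFc z hz
  obtain ⟨m', hm', hmF'⟩ := hFc z' hz'
  set e := m * k * m'⁻¹ with he
  have heE₀ : e ∈ E₀ := by
    refine ⟨m • z, hmF, m' • z', hmF', ?_⟩
    have : e • m' • z' = m • k • z' := by
      rw [he]
      simp only [← mul_smul]
      congr 1
      group
    rw [this, dist_smul hG hc]
    exact hd
  have heC : e ∈ Subgroup.Commensurable.commensurator M :=
    mul_mem (mul_mem (le_commensurator M hm) hk) (inv_mem (le_commensurator M hm'))
  obtain ⟨s, hs, t, ht, hmt⟩ := hSc e heC m hm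
  refine ⟨s⁻¹ * e, ?_, ?_⟩
  · simp only [Set.mem_iUnion]
    exact ⟨e, heE₀, s, hs, rfl⟩
  · -- `k = m⁻¹ e m'` and `m = t s` with `t = e t' e⁻¹`
    obtain ⟨⟨t', ht', hte⟩, htM⟩ := ht
    have hte' : t = e * t' * e⁻¹ := hte.symm
    have hk' : k = m⁻¹ * e * m' := by rw [he]; group
    have : (s⁻¹ * e)⁻¹ * k = t'⁻¹ * m' := by
      rw [hk', hmt, hte']
      group
    rw [this]
    exact mul_mem (inv_mem ht') hm'

/-! ### Finiteness of halfspaces -/

lemma finite_separating (h : IsMedianGraph X) (hG : GeometricAction G X) (a b : V) :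
    {A | IsHalfspace X A ∧ a ∉ A ∧ b ∈ A}.Finite := by
  have hc := h.connected
  have hB := ball_finite hG hc b (X.dist a b)
  have hB' := ball_finite hG hc b (X.dist a b + 1)
  refine ((hB.prod hB').image (fun p : V × V => halfspace X p.1 p.2)).subset ?_
  rintro A ⟨⟨x, y, hxy, rfl⟩, ha, hb⟩
  obtain ⟨w'', w', hadj, hw'', hw', hd⟩ := exists_crossing_edge hc _ a b rfl ha hb
  refine ⟨(w', w''), ⟨?_, ?_⟩, ?_⟩
  · show X.dist b w' ≤ X.dist a b
    rw [SimpleGraph.dist_comm]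
    omega
  · show X.dist b w'' ≤ X.dist a b + 1
    have h1 := SimpleGraph.dist_eq_one_iff_adj.2 hadj.symm
    have h2 : X.dist b w'' ≤ X.dist b w' + X.dist w' w'' := hc.dist_triangle
    have e1 : X.dist b w' = X.dist w' b := SimpleGraph.dist_comm
    omega
  · exact halfspace_eq_of_crossing_edge h hxy _ w' w'' hadj.symm rfl hw' hw''

/-- A halfspace separating `Z` from a translate by a commensurating element is virtually
preserved by `M`. -/
lemma relIndex_of_separating (h : IsMedianGraph X) (hG : GeometricAction G X) {M : Subgroup G}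
    {Z : Set V} (hM : ConvexCocompactOn X M Z) {g : G}
    (hg : g ∈ Subgroup.Commensurable.commensurator M) {A : Set V} (hA : IsHalfspace X A)
    (hZ : ∀ v ∈ Z, v ∉ A) (hgZ : ∀ v ∈ Z, g • v ∈ A) :
    (commonStab G {A}).relIndex M ≠ 0 := by
  have hc := h.connected
  obtain ⟨z, hz⟩ := hM.nonempty
  set N : Subgroup G := M.map (MulAut.conj g).toMonoidHom ⊓ M with hN
  have hNM : N.relIndex M ≠ 0 := by
    rw [hN, Subgroup.inf_relIndex_right]
    exact (mem_commensurator_iff.1 hg).1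
  refine Subgroup.relIndex_ne_zero_trans ?_ hNM
  rw [relIndex_ne_zero_iff_orbit]
  refine (finite_separating h hG z (g • z)).subset ?_
  rintro _ ⟨⟨k, hk1, hk2⟩, rfl⟩
  show IsHalfspace X (k • A) ∧ z ∉ k • A ∧ g • z ∈ k • A
  refine ⟨isHalfspace_smul hG hc hA k, ?_, ?_⟩
  · rw [Set.mem_smul_set_iff_inv_smul_mem]
    exact hZ _ (hM.smul_mem _ (inv_mem hk2) z hz)
  · rw [Set.mem_smul_set_iff_inv_smul_mem]
    obtain ⟨m, hm, hmk⟩ := hk1
    have hmk' : k = g * m * g⁻¹ := hmk.symm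
    have : k⁻¹ • g • z = g • m⁻¹ • z := by
      rw [hmk']
      simp only [← mul_smul]
      congr 1
      group
    rw [this]
    exact hgZ _ (hM.smul_mem _ (inv_mem hm) z hz)

/-- Finitely many virtually preserved halfspaces not containing `Z` come close to `Z`. -/
lemma finite_near (h : IsMedianGraph X) (hG : GeometricAction G X) {M : Subgroup G}
    {Z : Set V} (hM : ConvexCocompactOn X M Z) (D : ℕ) :
    {A | IsHalfspace X A ∧ (commonStab G {A}).relIndex M ≠ 0 ∧
      ∃ v ∈ Z, v ∉ A ∧ ∃ u ∈ A, X.dist v u ≤ D}.Finite := by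
  have hc := h.connected
  obtain ⟨F, hF, hFc⟩ := hM.cocompact
  set 𝓑 : Set (Set V) := {A | (IsHalfspace X A ∧ ∃ f ∈ F, f ∉ A ∧ ∃ u ∈ A, X.dist f u ≤ D) ∧
    (commonStab G {A}).relIndex M ≠ 0} with h𝓑
  have h𝓑fin : 𝓑.Finite := by
    have h1 : 𝓑 ⊆ ⋃ f ∈ F, ⋃ u ∈ {u | X.dist f u ≤ D}, {A | IsHalfspace X A ∧ f ∉ A ∧ u ∈ A} := by
      rintro A ⟨⟨hA, f, hf, hfA, u, huA, hd⟩, _⟩
      simp only [Set.mem_iUnion]
      exact ⟨f, hf, u, hd, hA, hfA, huA⟩
    exact (hF.biUnion fun f _ => (ball_finite hG hc f D).biUnion fun u _ =>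
      finite_separating h hG f u).subset h1
  refine (h𝓑fin.biUnion fun B hB => (relIndex_ne_zero_iff_orbit M B).1 hB.2).subset ?_
  rintro A ⟨hA, hidx, v, hv, hvA, u, hu, hd⟩
  obtain ⟨k, hk, hkF⟩ := hFc v hv
  simp only [Set.mem_iUnion]
  refine ⟨k • A, ⟨⟨isHalfspace_smul hG hc hA k, k • v, hkF, ?_, k • u, ?_, ?_⟩, ?_⟩, ?_⟩
  · rw [Set.smul_mem_smul_set_iff]
    exact hvA
  · rw [Set.smul_mem_smul_set_iff]
    exact hu
  · rw [dist_smul hG hc]
    exact hd
  · exact relIndex_commonStab_smul (le_commensurator M hk) hidx fun v => by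
      rw [Set.smul_mem_smul_set_iff]
  · refine ⟨⟨k⁻¹, inv_mem hk⟩, ?_⟩
    show k⁻¹ • k • A = A
    rw [inv_smul_smul]

/-- Halfspaces meeting a far translate come from halfspaces close to `Z`. -/
lemma exists_translate (hG : GeometricAction G X) (hc : X.Connected) {M : Subgroup G}
    {Z : Set V} (hM : ConvexCocompactOn X M Z) {S : Set G} (hS : S.Finite)
    (hSC : ∀ s ∈ S, s ∈ Subgroup.Commensurable.commensurator M) :
    ∃ D : ℕ, ∀ k ∈ Subgroup.closure ((M : Set G) ∪ S), ∀ A : Set V, (∀ v ∈ Z, v ∉ A) →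
      (∃ v ∈ Z, k • v ∈ A) → ∃ g ∈ Subgroup.closure ((M : Set G) ∪ S), (∀ v ∈ Z, g • v ∉ A) ∧
        ∃ v ∈ Z, ∃ u, g • u ∈ A ∧ X.dist v u ≤ D := by
  classical
  have hρ : ∀ s : G, ∃ ρ : ℕ, s ∈ Subgroup.Commensurable.commensurator M →
      ∀ v ∈ Z, ∃ z ∈ Z, X.dist (s • v) z ≤ ρ := by
    intro s
    by_cases hs : s ∈ Subgroup.Commensurable.commensurator M
    · obtain ⟨ρ, hρ⟩ := exists_dist_bound' hG hc (hM.conj hG hc s) hM
        (mem_commensurator_iff.1 hs).2
      refine ⟨ρ, fun _ v hv => hρ (s • v) ?_⟩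
      show s⁻¹ • s • v ∈ Z
      rwa [inv_smul_smul]
    · exact ⟨0, fun h => absurd h hs⟩
  choose ρ hρ using hρ
  obtain ⟨D₁, hD₁⟩ := (hS.image ρ).bddAbove
  obtain ⟨D₂, hD₂⟩ := (hS.image fun s => ρ s⁻¹).bddAbove
  refine ⟨max D₁ D₂, ?_⟩
  -- one step
  have hstep : ∀ k ∈ Subgroup.closure ((M : Set G) ∪ S), ∀ s : G,
      (∀ v ∈ Z, ∃ z ∈ Z, X.dist (s • v) z ≤ max D₁ D₂) → ∀ A : Set V,
      ((∃ v ∈ Z, k • v ∈ A) → ∃ g ∈ Subgroup.closure ((M : Set G) ∪ S), (∀ v ∈ Z, g • v ∉ A) ∧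
        ∃ v ∈ Z, ∃ u, g • u ∈ A ∧ X.dist v u ≤ max D₁ D₂) →
      (∃ v ∈ Z, (k * s) • v ∈ A) → ∃ g ∈ Subgroup.closure ((M : Set G) ∪ S),
        (∀ v ∈ Z, g • v ∉ A) ∧ ∃ v ∈ Z, ∃ u, g • u ∈ A ∧ X.dist v u ≤ max D₁ D₂ := by
    intro k hk s hs A hP hv
    by_cases hkZ : ∃ v ∈ Z, k • v ∈ A
    · exact hP hkZ
    · push Not at hkZ
      obtain ⟨v, hv, hvA⟩ := hv
      obtain ⟨z, hz, hd⟩ := hs v hv
      refine ⟨k, hk, hkZ, z, hz, s • v, ?_, ?_⟩
      · rwa [← mul_smul]
      · rwa [SimpleGraph.dist_comm]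
  have hM0 : ∀ m ∈ M, ∀ v ∈ Z, ∃ z ∈ Z, X.dist (m • v) z ≤ max D₁ D₂ := fun m hm v hv =>
    ⟨m • v, hM.smul_mem m hm v hv, by simp⟩
  intro k hk
  induction hk using Subgroup.closure_induction_right with
  | one =>
    intro A hZA hv
    obtain ⟨v, hv, hvA⟩ := hv
    rw [one_smul] at hvA
    exact absurd hvA (hZA v hv)
  | mul_right k hk s hs ih =>
    intro A hZA hv
    refine hstep k hk s ?_ A (ih A hZA) hv
    rcases hs with hs | hs
    · exact hM0 s hs
    · intro v hv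
      obtain ⟨z, hz, hd⟩ := hρ s (hSC s hs) v hv
      exact ⟨z, hz, hd.trans ((hD₁ ⟨s, hs, rfl⟩).trans (le_max_left _ _))⟩
  | mul_inv_cancel k hk s hs ih =>
    intro A hZA hv
    refine hstep k hk s⁻¹ ?_ A (ih A hZA) hv
    rcases hs with hs | hs
    · exact hM0 s⁻¹ (inv_mem hs)
    · intro v hv
      obtain ⟨z, hz, hd⟩ := hρ s⁻¹ (inv_mem (hSC s hs)) v hv
      exact ⟨z, hz, hd.trans ((hD₂ ⟨s, hs, rfl⟩).trans (le_max_right _ _))⟩

/-- Mutually closest points of two convex sets. -/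
lemma exists_closest (h : IsMedianGraph X) {Z Z' : Set V} (hZ : GConvex X Z) (hZ' : GConvex X Z')
    (hne : Z.Nonempty) (hne' : Z'.Nonempty) : ∃ p q, IsGate X Z q p ∧ IsGate X Z' p q := by
  have hc := h.connected
  classical
  have hex : ∃ n, ∃ p ∈ Z, ∃ q ∈ Z', X.dist p q = n := by
    obtain ⟨p, hp⟩ := hne
    obtain ⟨q, hq⟩ := hne'
    exact ⟨_, p, hp, q, hq, rfl⟩
  obtain ⟨p, hp, q, hq, hpq⟩ := Nat.find_spec hex
  have hmin : ∀ p' ∈ Z, ∀ q' ∈ Z', X.dist p q ≤ X.dist p' q' := by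
    intro p' hp' q' hq'
    rw [hpq]
    exact Nat.find_min' hex ⟨p', hp', q', hq', rfl⟩
  obtain ⟨p', hp'⟩ := exists_gate h hZ hne q
  obtain ⟨q', hq'⟩ := exists_gate h hZ' hne' p
  have e1 : p' = p := by
    have h1 := hp'.2 p hp
    have h2 := hmin p' hp'.1 q hq
    have e1 : X.dist q p = X.dist p q := SimpleGraph.dist_comm
    have e2 : X.dist q p' = X.dist p' q := SimpleGraph.dist_comm
    rw [← hc.dist_eq_zero_iff]
    omega
  have e2 : q' = q := by
    have h1 := hq'.2 q hq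
    have h2 := hmin p hp q' hq'.1
    rw [← hc.dist_eq_zero_iff]
    omega
  subst e1 e2
  exact ⟨_, _, hp', hq'⟩

/-- The hyperplanes between mutually closest points separate the two convex sets. -/
lemma separates_of_closest (h : IsMedianGraph X) {Z Z' : Set V} {p q : V} (hp : IsGate X Z q p)
    (hq : IsGate X Z' p q) {A : Set V} (hA : IsHalfspace X A) (hpA : p ∉ A) (hqA : q ∈ A) :
    (∀ v ∈ Z, v ∉ A) ∧ ∀ v ∈ Z', v ∈ A := by
  obtain ⟨x, y, hxy, rfl⟩ := hA
  constructor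
  · intro v hv hvA
    exact hpA (hp.mem_of_mem (gconvex_halfspace h hxy) hqA ⟨v, hv, hvA⟩)
  · intro v hv
    by_contra hvA
    exact hq.mem_of_mem (gconvex_compl_halfspace h hxy) hpA ⟨v, hv, hvA⟩ hqA

/-- There are at least `d(p, q)` halfspaces separating `p` from `q`. -/
lemma dist_le_ncard (h : IsMedianGraph X) (hG : GeometricAction G X) (p q : V) :
    X.dist p q ≤ {A | IsHalfspace X A ∧ p ∉ A ∧ q ∈ A}.ncard := by
  classical
  have hc := h.connected
  obtain ⟨u, hu0, hu1, hu⟩ := exists_geodesic hc p q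
  have hdist : ∀ i j, i ≤ X.dist p q → j ≤ X.dist p q → X.dist (u i) (u j) =
      ((i : ℤ) - j).natAbs := fun i j hi hj => geodesic_dist hc hu0 hu1 hu hi hj
  have hmem : ∀ i j, i < X.dist p q → j ≤ X.dist p q →
      (u j ∈ halfspace X (u (i + 1)) (u i) ↔ i < j) := by
    intro i j hi hj
    show X.dist _ _ < X.dist _ _ ↔ _
    rw [hdist j (i + 1) hj hi, hdist j i hj hi.le]
    omega
  have hinj : Set.InjOn (fun i => halfspace X (u (i + 1)) (u i)) (Set.Iio (X.dist p q)) := by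
    intro i hi j hj hij
    have hi' : i < X.dist p q := hi
    have hj' : j < X.dist p q := hj
    rcases lt_trichotomy i j with hlt | heq | hlt
    · exfalso
      have h1 := (hmem i j hi' hj'.le).2 hlt
      simp only at hij
      rw [hij, hmem j j hj' hj'.le] at h1
      omega
    · exact heq
    · exfalso
      have h1 := (hmem j i hj' hi'.le).2 hlt
      simp only at hij
      rw [← hij, hmem i i hi' hi'.le] at h1
      omega
  have h1 : (Set.Iio (X.dist p q)).ncard = X.dist p q := by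
    rw [← Nat.card_coe_set_eq]
    simp
  calc X.dist p q = (Set.Iio (X.dist p q)).ncard := h1.symm
    _ ≤ _ := Set.ncard_le_ncard_of_injOn _ (fun i hi => by
        have hi' : i < X.dist p q := hi
        refine ⟨⟨_, _, (hu i hi').symm, rfl⟩, ?_, ?_⟩
        · have := hmem i 0 hi' (Nat.zero_le _)
          rw [hu0] at this
          rw [this]
          omega
        · have := hmem i _ hi' le_rfl
          rw [hu1] at this
          rw [this]
          exact hi') hinj (finite_separating h hG p q)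

end Pool.Agent.Lib.MP_140312_al_Comm
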