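import Pool.Agent.Lib.MP_140312_al_Comm.Ray

/-!
# The skewering criterion

If `M` is an infinite convex cocompact subgroup and some element commensurating `M` skewers a
hyperplane virtually preserved by `M`, then `G` contains `ℤ × ℤ`.
-/

namespace Pool.Agent.Lib.MP_140312_al_Comm

open scoped Pointwise

open Pool.Agent.Lib.MP_140312_al Pool.Agent.Lib.MP_140312_al_Chain

variable {V : Type*} {G : Type*} [Group G] [MulAction G V] {X : SimpleGraph V}

lemma le_commensurator (M : Subgroup G) : M ≤ Subgroup.Commensurable.commensurator M := by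
  intro m hm
  rw [mem_commensurator_iff]
  have : M.map (MulAut.conj m).toMonoidHom = M := by
    ext x
    rw [Subgroup.mem_map]
    constructor
    · rintro ⟨k, hk, rfl⟩
      exact mul_mem (mul_mem hm hk) (inv_mem hm)
    · intro hx
      refine ⟨m⁻¹ * x * m, mul_mem (mul_mem (inv_mem hm) hx) hm, ?_⟩
      show m * (m⁻¹ * x * m) * m⁻¹ = x
      group
  rw [this]

/-- Stabilisers of translates by commensurating elements. -/
lemma relIndex_commonStab_smul {M : Subgroup G} {g : G}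
    (hg : g ∈ Subgroup.Commensurable.commensurator M) {A A' : Set V}
    (hA : (commonStab G {A}).relIndex M ≠ 0) (hA' : ∀ v, g • v ∈ A' ↔ v ∈ A) :
    (commonStab G {A'}).relIndex M ≠ 0 := by
  rw [mem_commensurator_iff] at hg
  set c := (MulAut.conj g).toMonoidHom with hcdef
  have hinj : Function.Injective c := (MulAut.conj g).injective
  have h1 : ((commonStab G {A}).map c).relIndex (M.map c) ≠ 0 := by
    rw [Subgroup.relIndex_map_map_of_injective _ _ hinj]
    exact hA
  have h2 := Subgroup.relIndex_ne_zero_trans h1 hg.1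
  intro h3
  apply h2
  refine Subgroup.relIndex_eq_zero_of_le_left ?_ h3
  rintro _ ⟨k, hk, rfl⟩ B hB v
  rw [Set.mem_singleton_iff] at hB
  subst hB
  show (g * k * g⁻¹) • v ∈ B ↔ v ∈ B
  rw [mul_smul, mul_smul, hA', hk A rfl, ← hA', smul_inv_smul]

/-- **Skewering criterion.** -/
theorem z2_of_skewer (h : IsMedianGraph X) (hG : GeometricAction G X) {M : Subgroup G}
    {Z : Set V} (hM : ConvexCocompactOn X M Z) (hinf : Z.Infinite) {g : G}
    (hg : g ∈ Subgroup.Commensurable.commensurator M) {A : Set V} (hA : IsHalfspace X A)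
    (hAM : (commonStab G {A}).relIndex M ≠ 0) (hgA : ∀ v ∈ A, g • v ∈ A) {v₀ : V} (hv₀ : v₀ ∈ A)
    (hv₀' : g⁻¹ • v₀ ∉ A) :
    ∃ φ : Multiplicative (ℤ × ℤ) →* G, Function.Injective φ := by
  classical
  have hc := h.connected
  obtain ⟨d, hd⟩ := exists_dimLE h hG
  obtain ⟨r, hr, hrZ⟩ := exists_ray hG hc hM.convex hinf
  have hgj : ∀ j : ℕ, g ^ j ∈ Subgroup.Commensurable.commensurator M := fun j => pow_mem hg j
  set Zj : ℕ → Set V := fun j => {v | (g ^ j)⁻¹ • v ∈ Z} with hZj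
  have hMj : ∀ j : ℕ, ConvexCocompactOn X (M.map (MulAut.conj (g ^ j)).toMonoidHom) (Zj j) :=
    fun j => hM.conj hG hc (g ^ j)
  choose e he using fun j i : ℕ => exists_gate h (hMj j).convex (hMj j).nonempty (r i)
  have hstep : ∀ j i, X.dist (e j i) (e j (i + 1)) ≤ 1 := by
    intro j i
    have h1 := (he j i).lipschitz h (he j (i + 1))
    have h2 := hr i (i + 1)
    omega
  have hfin : ∀ j, {i | e j i = e j (i + 1)}.Finite := by
    intro j
    obtain ⟨ρ, hρ⟩ := exists_dist_bound' hG hc hM (hMj j) (mem_commensurator_iff.1 (hgj j)).1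
    exact finite_collapse hc hr (fun i => hρ _ (hrZ i)) (he j) (hstep j)
  have hedge : ∀ j i, e j i ≠ e j (i + 1) → X.Adj (e j (i + 1)) (e j i) ∧
      halfspace X (e j (i + 1)) (e j i) = rayHalf X r i := by
    intro j i hne
    obtain ⟨h1, h2⟩ := crosses_of_gates_ne h (adj_ray hr i) (he j i) (he j (i + 1)) hne
    exact gate_edge h (adj_ray hr i) (he j (i + 1)) (he j i) h1 h2
  -- two members of an infinite set of indices with nested halfspaces
  have hnest : ∀ S : Set ℕ, S.Infinite → ∃ i ∈ S, ∃ i' ∈ S, i < i' ∧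
      rayHalf X r i' ⊆ rayHalf X r i := by
    intro S hS
    obtain ⟨F, hF, hFcard⟩ := hS.exists_subset_card_eq (d + 1)
    let o := F.orderEmbOfFin hFcard
    have ho : ∀ k, o k ∈ F := fun k => Finset.orderEmbOfFin_mem F hFcard k
    obtain ⟨k, l, hkl, hcr⟩ := hd (fun k => r (o k + 1)) (fun k => r (o k)) (fun k => adj_ray hr _)
    rcases lt_or_gt_of_ne hkl with hlt | hlt
    · exact ⟨o k, hF (ho k), o l, hF (ho l), o.strictMono hlt,
        rayHalf_subset hr (o.strictMono hlt) hcr⟩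
    · refine ⟨o l, hF (ho l), o k, hF (ho k), o.strictMono hlt,
        rayHalf_subset hr (o.strictMono hlt) fun hcr' => hcr ?_⟩
      obtain ⟨h1, h2, h3, h4⟩ := hcr'
      refine ⟨?_, ?_, ?_, ?_⟩
      · rwa [Set.inter_comm]
      · rwa [Set.inter_comm]
      · rwa [Set.inter_comm]
      · rwa [Set.inter_comm]
  -- for every `j` an index and an element of `M`
  have hstepj : ∀ j N : ℕ, ∃ i, N ≤ i ∧ e j i ≠ e j (i + 1) ∧ ∃ l ∈ M, ∃ i', i < i' ∧
      rayHalf X r i' ⊆ rayHalf X r i ∧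
      ∀ v, (g ^ j * l * (g ^ j)⁻¹) • v ∈ rayHalf X r i' ↔ v ∈ rayHalf X r i := by
    intro j N
    have hS : {i | N ≤ i ∧ e j i ≠ e j (i + 1)}.Infinite := by
      have h1 : ({i | e j i = e j (i + 1)} ∪ {i | i < N})ᶜ.Infinite :=
        ((hfin j).union (Set.finite_lt_nat N)).infinite_compl
      refine h1.mono ?_
      intro i hi
      rw [Set.mem_compl_iff, Set.mem_union, not_or] at hi
      exact ⟨not_lt.1 hi.2, hi.1⟩
    obtain ⟨T, hTS, hTinf, hT⟩ := hM.pigeonhole hG hc (κ := Fin 2) 0 1 _ hS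
      (fun i => ![(g ^ j)⁻¹ • e j i, (g ^ j)⁻¹ • e j (i + 1)]) (fun i => (he j i).1) (by
        intro i a
        fin_cases a
        · simp
        · show X.dist ((g ^ j)⁻¹ • e j i) ((g ^ j)⁻¹ • e j (i + 1)) ≤ 1
          rw [dist_smul hG hc]
          exact hstep j i)
    obtain ⟨i, hi, i', hi', hii', hsub⟩ := hnest T hTinf
    obtain ⟨l, hl, hl'⟩ := hT i hi i' hi'
    refine ⟨i, (hTS hi).1, (hTS hi).2, l, hl, i', hii', hsub, fun v => ?_⟩
    have e0 : l • (g ^ j)⁻¹ • e j i = (g ^ j)⁻¹ • e j i' := hl' 0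
    have e1 : l • (g ^ j)⁻¹ • e j (i + 1) = (g ^ j)⁻¹ • e j (i' + 1) := hl' 1
    rw [← (hedge j i (hTS hi).2).2, ← (hedge j i' (hTS hi').2).2]
    have e0' : (g ^ j * l * (g ^ j)⁻¹) • e j i = e j i' := by
      rw [mul_smul, mul_smul, e0, smul_inv_smul]
    have e1' : (g ^ j * l * (g ^ j)⁻¹) • e j (i + 1) = e j (i' + 1) := by
      rw [mul_smul, mul_smul, e1, smul_inv_smul]
    rw [← e0', ← e1']
    exact smul_mem_halfspace hG hc _ _ _ _
  choose ix hixN hixne l hlM ix' hixlt hixsub hixL using hstepj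
  -- choose the indices increasingly
  let I : ℕ → ℕ := fun j => Nat.rec (ix 0 0) (fun j N => ix (j + 1) (N + 1)) j
  have hI0 : I 0 = ix 0 0 := rfl
  have hIs : ∀ j, I (j + 1) = ix (j + 1) (I j + 1) := fun j => rfl
  let N : ℕ → ℕ := fun j => match j with
    | 0 => 0
    | j + 1 => I j + 1
  have hIN : ∀ j, I j = ix j (N j) := by
    intro j
    cases j with
    | zero => rfl
    | succ j => rfl
  have hImono : StrictMono I := by
    apply strictMono_nat_of_lt_succ
    intro j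
    have := hixN (j + 1) (I j + 1)
    rw [hIs]
    omega
  have hMA := hM.of_relIndex hAM
  obtain ⟨T, _, hTinf, hT⟩ := hMA.pigeonhole hG hc (κ := Fin 2) 0 1 Set.univ Set.infinite_univ
    (fun j => ![(g ^ j)⁻¹ • e j (I j), (g ^ j)⁻¹ • e j (I j + 1)]) (fun j => (he j (I j)).1) (by
      intro j a
      fin_cases a
      · simp
      · show X.dist ((g ^ j)⁻¹ • e j (I j)) ((g ^ j)⁻¹ • e j (I j + 1)) ≤ 1
        rw [dist_smul hG hc]
        exact hstep j (I j))
  obtain ⟨i, hi, i', hi', hii', hsub⟩ := hnest (I '' T) (hTinf.image hImono.injective.injOn)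
  obtain ⟨j, hj, rfl⟩ := hi
  obtain ⟨j', hj', rfl⟩ := hi'
  have hjj' : j < j' := hImono.lt_iff_lt.1 hii'
  obtain ⟨m, hm, hm'⟩ := hT j hj j' hj'
  have e0 : m • (g ^ j)⁻¹ • e j (I j) = (g ^ j')⁻¹ • e j' (I j') := hm' 0
  have e1 : m • (g ^ j)⁻¹ • e j (I j + 1) = (g ^ j')⁻¹ • e j' (I j' + 1) := hm' 1
  set γ := g ^ j' * m * (g ^ j)⁻¹ with hγ
  have e0' : γ • e j (I j) = e j' (I j') := by
    rw [hγ, mul_smul, mul_smul, e0, smul_inv_smul]
  have e1' : γ • e j (I j + 1) = e j' (I j' + 1) := by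
    rw [hγ, mul_smul, mul_smul, e1, smul_inv_smul]
  have hγW : ∀ v, γ • v ∈ rayHalf X r (I j') ↔ v ∈ rayHalf X r (I j) := by
    intro v
    have hne : e j (I j) ≠ e j (I j + 1) := by
      have := hixne j (N j)
      rwa [← hIN] at this
    have hne' : e j' (I j') ≠ e j' (I j' + 1) := by
      have := hixne j' (N j')
      rwa [← hIN] at this
    rw [← (hedge j (I j) hne).2, ← (hedge j' (I j') hne').2, ← e0', ← e1']
    exact smul_mem_halfspace hG hc _ _ _ _
  have hγcomm : γ ∈ Subgroup.Commensurable.commensurator M :=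
    mul_mem (mul_mem (hgj j') (le_commensurator M hm.2)) (inv_mem (hgj j))
  have hgpow : ∀ (k : ℕ) v, v ∈ A → g ^ k • v ∈ A := by
    intro k
    induction k with
    | zero => intro v hv; simpa using hv
    | succ k ih => intro v hv; rw [pow_succ, mul_smul]; exact ih _ (hgA v hv)
  obtain ⟨x, y, hxy, hAxy⟩ := hA
  have hAj : ∀ v, g ^ j • v ∈ halfspace X (g ^ j • x) (g ^ j • y) ↔ v ∈ A := by
    intro v
    rw [smul_mem_halfspace hG hc, hAxy]
  obtain ⟨t, ht⟩ : ∃ t, j' = j + (t + 1) := ⟨j' - j - 1, by omega⟩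
  have hgj' : ∀ x : V, g ^ j' • x = g ^ j • g ^ (t + 1) • x := by
    intro x
    rw [ht, pow_add, mul_smul]
  -- the power of `l` lying in `M`
  set L := g ^ j * l j (N j) * (g ^ j)⁻¹ with hLdef
  have hL : ∀ v, L • v ∈ rayHalf X r (ix' j (N j)) ↔ v ∈ rayHalf X r (I j) := by
    intro v
    have := hixL j (N j) v
    rwa [← hIN] at this
  have hLsub : rayHalf X r (ix' j (N j)) ⊆ rayHalf X r (I j) := by
    have := hixsub j (N j)
    rwa [← hIN] at this
  have hLlt : I j < ix' j (N j) := by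
    have := hixlt j (N j)
    rwa [← hIN] at this
  obtain ⟨n, hn, hnM⟩ := exists_pow_conj_mem (hgj j) (hlM j (N j))
  have hLn : L ^ n = g ^ j * l j (N j) ^ n * (g ^ j)⁻¹ := by
    rw [hLdef, conj_pow]
  have hLpow : ∀ (k : ℕ) v, v ∈ rayHalf X r (I j) → L ^ k • v ∈ rayHalf X r (I j) := by
    intro k
    induction k with
    | zero => intro v hv; simpa using hv
    | succ k ih =>
      intro v hv
      rw [pow_succ, mul_smul]
      exact ih _ (hLsub ((hL v).2 hv))
  refine z2_of_commensurating h hG hM hγcomm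
    (A := halfspace X (g ^ j • x) (g ^ j • y)) ⟨_, _, (hG.adj_iff _ _ _).2 hxy, rfl⟩
    (relIndex_commonStab_smul (hgj j) hAM hAj) (v₀ := g ^ j • v₀) ?_ ((hAj v₀).2 hv₀) ?_
    (q := r (I j + 1)) (p := r (I j)) (adj_ray hr _) ?_ ?_ (l := L ^ n) (by rw [hLn]; exact hnM)
    ?_ ?_
  · intro v hv
    obtain ⟨v, rfl⟩ : ∃ v', v = g ^ j • v' := ⟨(g ^ j)⁻¹ • v, by rw [smul_inv_smul]⟩
    rw [hAj] at hv
    have : γ • g ^ j • v = g ^ j • g ^ (t + 1) • m • v := by
      rw [← hgj', hγ, mul_smul, mul_smul, inv_smul_smul]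
    rw [this, hAj]
    exact hgpow _ _ ((hm.1 A rfl v).2 hv)
  · intro hcon
    have : γ⁻¹ • g ^ j • v₀ = g ^ j • m⁻¹ • (g ^ (t + 1))⁻¹ • v₀ := by
      rw [hγ, ht, pow_add]
      simp only [← mul_smul]
      congr 1
      group
    rw [this, hAj, ← hm.1 A rfl, smul_inv_smul] at hcon
    apply hv₀'
    have h6 := hgpow t _ hcon
    rw [← mul_smul] at h6
    convert h6 using 2
    rw [pow_succ']
    group
  · intro v hv
    exact hsub ((hγW v).2 hv)
  · intro hcon
    have h1 := (hγW _).2 hcon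
    rw [smul_inv_smul, mem_rayHalf hr] at h1
    omega
  · intro v hv
    exact hLpow n v hv
  · intro hcon
    obtain ⟨n', rfl⟩ : ∃ n', n = n' + 1 := ⟨n - 1, by omega⟩
    have h1 : L ^ n' • (L ^ (n' + 1))⁻¹ • r (I j + 1) ∈ rayHalf X r (I j) := hLpow n' _ hcon
    have h2 : L • L ^ n' • (L ^ (n' + 1))⁻¹ • r (I j + 1) = r (I j + 1) := by
      rw [← mul_smul, ← pow_succ', smul_inv_smul]
    have h3 := (hL _).2 h1
    rw [h2, mem_rayHalf hr] at h3
    omega

end Pool.Agent.Lib.MP_140312_al_Comm
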