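import Pool.Agent.Lib.MP_140312_al.Defs

/-!
# Definitions: convex cocompact subgroups
-/

namespace Pool.Agent.Lib.MP_140312_al_Comm

variable {V : Type*}

/-- The subgroup `M` acts cocompactly on the nonempty convex set `Z` of vertices of `X`: the set
`Z` contains every vertex lying on a shortest path between two of its members, `M` preserves
`Z`, and finitely many `M`-orbits cover `Z`. A subgroup is convex cocompact if it acts
cocompactly on some nonempty convex set of vertices. -/
structure ConvexCocompactOn {G : Type*} [Group G] [MulAction G V] (X : SimpleGraph V)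
    (M : Subgroup G) (Z : Set V) : Prop where
  nonempty : Z.Nonempty
  convex : ∀ a ∈ Z, ∀ b ∈ Z, ∀ m, X.dist a m + X.dist m b = X.dist a b → m ∈ Z
  smul_mem : ∀ k ∈ M, ∀ v ∈ Z, k • v ∈ Z
  cocompact : ∃ F : Set V, F.Finite ∧ ∀ v ∈ Z, ∃ k ∈ M, k • v ∈ F

end Pool.Agent.Lib.MP_140312_al_Comm
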