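import Pool.Agent.Lib.MP_140312_al_Comm.InfiniteIndex

/-!
# Overgroups of finite index
-/

namespace Pool.Agent.Lib.MP_140312_al_Comm

open scoped Pointwise

open Pool.Agent.Lib.MP_140312_al Pool.Agent.Lib.MP_140312_al_Chain

variable {V : Type*} {G : Type*} [Group G] [MulAction G V] {X : SimpleGraph V}

/-! ### Elements of infinite order -/

lemma infinite_of_infinite (hG : GeometricAction G X) {M : Subgroup G} {Z : Set V}
    (hM : ConvexCocompactOn X M Z) (hinf : (M : Set G).Infinite) : Z.Infinite := by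
  intro hfin
  obtain ⟨z₀, hz₀⟩ := hM.nonempty
  have hmaps : Set.MapsTo (fun m : G => m • z₀) (M : Set G) Z := fun m hm =>
    hM.smul_mem m hm z₀ hz₀
  apply hinf
  have h1 : (M : Set G) ⊆ ⋃ v ∈ Z, {m | m • z₀ = v} := by
    intro m hm
    simp only [Set.mem_iUnion]
    exact ⟨m • z₀, hmaps hm, rfl⟩
  refine (hfin.biUnion fun v _ => ?_).subset h1
  by_cases hv : ∃ m₀ : G, m₀ • z₀ = v
  · obtain ⟨m₀, rfl⟩ := hv
    refine ((hG.finite_stabilizer z₀).image (fun u => m₀ * u)).subset ?_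
    intro m hm
    refine ⟨m₀⁻¹ * m, ?_, by simp⟩
    show (m₀⁻¹ * m) • z₀ = z₀
    have : m • z₀ = m₀ • z₀ := hm
    rw [mul_smul, this, inv_smul_smul]
  · have : {m : G | m • z₀ = v} = ∅ := by
      ext m
      simp only [Set.mem_ofPred_eq, Set.mem_empty_iff_false, iff_false]
      exact fun hm => hv ⟨m, hm⟩
    rw [this]
    exact Set.finite_empty

lemma exists_nested_ray {d : ℕ} (hd : DimLE X d) {r : ℕ → V} (hr : IsRay X r) {S : Set ℕ}
    (hS : S.Infinite) : ∃ i ∈ S, ∃ i' ∈ S, i < i' ∧ rayHalf X r i' ⊆ rayHalf X r i := by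
  obtain ⟨F, hF, hFcard⟩ := hS.exists_subset_card_eq (d + 1)
  let o := F.orderEmbOfFin hFcard
  have ho : ∀ k, o k ∈ F := fun k => Finset.orderEmbOfFin_mem F hFcard k
  obtain ⟨k, l, hkl, hcr⟩ := hd (fun k => r (o k + 1)) (fun k => r (o k)) (fun k => adj_ray hr _)
  rcases lt_or_gt_of_ne hkl with hlt | hlt
  · exact ⟨o k, hF (ho k), o l, hF (ho l), o.strictMono hlt,
      rayHalf_subset hr (o.strictMono hlt) hcr⟩
  · refine ⟨o l, hF (ho l), o k, hF (ho k), o.strictMono hlt,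
      rayHalf_subset hr (o.strictMono hlt) fun hcr' => hcr ?_⟩
    obtain ⟨h1, h2, h3, h4⟩ := hcr'
    refine ⟨?_, ?_, ?_, ?_⟩
    · rwa [Set.inter_comm]
    · rwa [Set.inter_comm]
    · rwa [Set.inter_comm]
    · rwa [Set.inter_comm]

lemma exists_infinite_order (h : IsMedianGraph X) (hG : GeometricAction G X) {M : Subgroup G}
    {Z : Set V} (hM : ConvexCocompactOn X M Z) (hinf : Z.Infinite) :
    ∃ z ∈ M, ∀ m : ℕ, 0 < m → z ^ m ≠ 1 := by
  have hc := h.connected
  obtain ⟨d, hd⟩ := exists_dimLE h hG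
  obtain ⟨r, hr, hrZ⟩ := exists_ray hG hc hM.convex hinf
  obtain ⟨T, _, hTinf, hT⟩ := hM.pigeonhole hG hc (κ := Fin 2) 0 1 Set.univ Set.infinite_univ
    (fun j => ![r j, r (j + 1)]) (fun j => hrZ j) (by
      intro j a
      fin_cases a
      · simp
      · show X.dist (r j) (r (j + 1)) ≤ 1
        rw [hr]
        omega)
  obtain ⟨i, hi, i', hi', hii', hsub⟩ := exists_nested_ray hd hr hTinf
  obtain ⟨l, hl, hl'⟩ := hT i hi i' hi'
  have e0 : l • r i = r i' := hl' 0
  have e1 : l • r (i + 1) = r (i' + 1) := hl' 1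
  have hlW : ∀ v, l • v ∈ rayHalf X r i' ↔ v ∈ rayHalf X r i := by
    intro v
    show l • v ∈ halfspace X (r (i' + 1)) (r i') ↔ _
    rw [← e0, ← e1]
    exact smul_mem_halfspace hG hc _ _ _ _
  refine ⟨l, hl, infinite_order_of_skewer (A := rayHalf X r i) (v₁ := r (i + 1))
    (fun v hv => hsub ((hlW v).2 hv)) ?_ ?_⟩
  · rw [mem_rayHalf hr]
    omega
  · rw [← hlW, smul_inv_smul, mem_rayHalf hr]
    omega

/-! ### Weights -/

open Classical in
/-- The weight of a set `A` on a set `S`: `2` if `A` contains `S`, `0` if `A` is disjoint from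
`S`, and `1` otherwise. -/
noncomputable def wt (S A : Set V) : ℕ := if S ⊆ A then 2 else if S ⊆ Aᶜ then 0 else 1

lemma wt_add_compl {S : Set V} (hS : S.Nonempty) (A : Set V) : wt S A + wt S Aᶜ = 2 := by
  obtain ⟨s, hs⟩ := hS
  unfold wt
  rw [compl_compl]
  by_cases h1 : S ⊆ A
  · have h2 : ¬ S ⊆ Aᶜ := fun h2 => h2 hs (h1 hs)
    rw [if_pos h1, if_neg h2, if_pos h1]
  · by_cases h2 : S ⊆ Aᶜ
    · rw [if_neg h1, if_pos h2, if_pos h2]
    · rw [if_neg h1, if_neg h2, if_neg h2, if_neg h1]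

lemma wt_add_le {S A B : Set V} (hS : S.Nonempty) (hAB : A ∩ B = ∅) : wt S A + wt S B ≤ 2 := by
  obtain ⟨s, hs⟩ := hS
  have hd : ∀ v, v ∈ A → v ∈ B → False := by
    intro v h1 h2
    have : v ∈ A ∩ B := ⟨h1, h2⟩
    rw [hAB] at this
    exact this
  unfold wt
  by_cases h1 : S ⊆ A
  · have h2 : ¬ S ⊆ B := fun h2 => hd s (h1 hs) (h2 hs)
    have h3 : S ⊆ Bᶜ := fun v hv hvB => hd v (h1 hv) hvB
    rw [if_pos h1, if_neg h2, if_pos h3]
  · by_cases h2 : S ⊆ B
    · have h3 : S ⊆ Aᶜ := fun v hv hvA => hd v hvA (h2 hv)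
      rw [if_neg h1, if_pos h3, if_pos h2]
    · rw [if_neg h1, if_neg h2]
      split_ifs <;> omega

lemma wt_eq_zero {S A : Set V} (hS : S.Nonempty) (hA : ∀ v ∈ S, v ∉ A) : wt S A = 0 := by
  obtain ⟨s, hs⟩ := hS
  have h1 : ¬ S ⊆ A := fun h1 => hA s hs (h1 hs)
  have h2 : S ⊆ Aᶜ := hA
  unfold wt
  rw [if_neg h1, if_pos h2]

lemma wt_smul (g : G) (S A : Set V) : wt (g • S) (g • A) = wt S A := by
  unfold wt
  rw [Set.smul_set_subset_smul_set_iff, ← Set.smul_set_compl, Set.smul_set_subset_smul_set_iff]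

/-- A finite family of nonempty sets permuted by `H`, containing the convex set `Z`, on which
large halfspaces are measured. -/
structure IsWeightFamily {ι : Type*} (H : Subgroup G) (Z : Set V) (Y : ι → Set V) (i₀ : ι) :
    Prop where
  nonempty : ∀ i, (Y i).Nonempty
  base : Y i₀ = Z
  perm : ∀ g ∈ H, ∃ σ : Equiv.Perm ι, ∀ i, g • Y i = Y (σ i)

/-- The total weight. -/
noncomputable def total {ι : Type*} [Fintype ι] (Y : ι → Set V) (A : Set V) : ℕ :=
  ∑ i, wt (Y i) A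

section

variable {ι : Type*} [Fintype ι] {H M : Subgroup G} {Z : Set V} {Y : ι → Set V} {i₀ : ι}

lemma IsWeightFamily.total_compl (hY : IsWeightFamily H Z Y i₀) (A : Set V) :
    total Y A + total Y Aᶜ = 2 * Fintype.card ι := by
  unfold total
  rw [← Finset.sum_add_distrib, Finset.sum_congr rfl fun i _ => wt_add_compl (hY.nonempty i) A]
  simp [mul_comm]

lemma IsWeightFamily.total_smul (hY : IsWeightFamily H Z Y i₀) {g : G} (hg : g ∈ H) (A : Set V) :
    total Y (g • A) = total Y A := by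
  obtain ⟨σ, hσ⟩ := hY.perm g hg
  unfold total
  rw [← Equiv.sum_comp σ]
  refine Finset.sum_congr rfl fun i _ => ?_
  rw [← hσ, wt_smul]

lemma IsWeightFamily.total_add_lt (hY : IsWeightFamily H Z Y i₀) {A B : Set V} (hAB : A ∩ B = ∅)
    (hA : ∀ v ∈ Z, v ∉ A) (hB : ∀ v ∈ Z, v ∉ B) : total Y A + total Y B < 2 * Fintype.card ι := by
  unfold total
  rw [← Finset.sum_add_distrib]
  calc ∑ i, (wt (Y i) A + wt (Y i) B) < ∑ _i : ι, 2 := by
        refine Finset.sum_lt_sum (fun i _ => wt_add_le (hY.nonempty i) hAB)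
          ⟨i₀, Finset.mem_univ _, ?_⟩
        rw [hY.base]
        have hne : Z.Nonempty := by
          rw [← hY.base]
          exact hY.nonempty _
        rw [wt_eq_zero hne hA, wt_eq_zero hne hB]
        norm_num
    _ = 2 * Fintype.card ι := by simp [mul_comm]

/-- Heavy halfspaces away from `Z`. -/
def Heavy (X : SimpleGraph V) (Z : Set V) (Y : ι → Set V) (A : Set V) : Prop :=
  IsHalfspace X A ∧ (∀ v ∈ Z, v ∉ A) ∧ Fintype.card ι ≤ total Y A

lemma Heavy.nested_or_crossing (hY : IsWeightFamily H Z Y i₀) {A B : Set V}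
    (hA : Heavy X Z Y A) (hB : Heavy X Z Y B) : A ⊆ B ∨ B ⊆ A ∨ Crossing A B := by
  have hne : Z.Nonempty := by
    rw [← hY.base]
    exact hY.nonempty _
  obtain ⟨z, hz⟩ := hne
  have h0 : (A ∩ B).Nonempty := by
    by_contra hcon
    rw [Set.not_nonempty_iff_eq_empty] at hcon
    have := hY.total_add_lt hcon hA.2.1 hB.2.1
    have h1 := hA.2.2
    have h2 := hB.2.2
    omega
  obtain ⟨q, hq⟩ := h0
  exact Pool.Agent.Lib.MP_140312_al_Comm.nested_or_crossing (hA.2.1 z hz) (hB.2.1 z hz) hq.1 hq.2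

lemma Heavy.smul (hG : GeometricAction G X) (hc : X.Connected) (hY : IsWeightFamily H Z Y i₀)
    {g : G} (hg : g ∈ H) (hgZ : ∀ v ∈ Z, g⁻¹ • v ∈ Z) {A : Set V} (hA : Heavy X Z Y A) :
    Heavy X Z Y (g • A) := by
  refine ⟨isHalfspace_smul hG hc hA.1 g, fun v hv hvA => ?_, ?_⟩
  · rw [Set.mem_smul_set_iff_inv_smul_mem] at hvA
    exact hA.2.1 _ (hgZ v hv) hvA
  · rw [hY.total_smul hg]
    exact hA.2.2

/-- An element preserving `Z` cannot skewer a halfspace disjoint from `Z`. -/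
lemma eq_of_smul_subset (h : IsMedianGraph X) (hG : GeometricAction G X)
    (hM : ConvexCocompactOn X M Z) {A : Set V} (hA : IsHalfspace X A) (hZA : ∀ v ∈ Z, v ∉ A)
    {u : G} (hu : u ∈ M) (huA : u • A ⊆ A) : u • A = A := by
  by_contra hne
  obtain ⟨v₁, hv₁, hv₁'⟩ : ∃ v₁ ∈ A, v₁ ∉ u • A := by
    by_contra hcon
    push Not at hcon
    exact hne (huA.antisymm hcon)
  obtain ⟨x, y, hxy, rfl⟩ := hA
  obtain ⟨⟨v, hv, hvA⟩, _⟩ := crosses_of_skewer h hG hxy (u := u)
    (fun v hv => huA (by rwa [Set.smul_mem_smul_set_iff])) hv₁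
    (by rwa [← Set.mem_smul_set_iff_inv_smul_mem]) hM.nonempty (fun v => hM.smul_iff hu v)
  exact hZA v hv hvA

/-- A fixed power of an element of `M` preserves every heavy halfspace away from `Z`. -/
lemma Heavy.pow_factorial (h : IsMedianGraph X) (hG : GeometricAction G X)
    (hM : ConvexCocompactOn X M Z) (hMH : M ≤ H) (hY : IsWeightFamily H Z Y i₀) {d : ℕ}
    (hd : DimLE X d) {z : G} (hz : z ∈ M) {A : Set V} (hA : Heavy X Z Y A) :
    z ^ d.factorial • A = A := by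
  have hc := h.connected
  have hzA : ∀ i : ℕ, Heavy X Z Y (z ^ i • A) := fun i => by
    have hm : z ^ i ∈ M := pow_mem hz i
    exact hA.smul hG hc hY (hMH hm) (fun v hv => hM.smul_mem _ (inv_mem hm) v hv)
  choose x y hxy hAxy using fun i : Fin (d + 1) => (hzA i).1
  obtain ⟨k, l, hkl, hn⟩ := hd x y hxy
  rw [← hAxy, ← hAxy] at hn
  have key : ∀ a b : ℕ, a < b → b ≤ d → (z ^ a • A ⊆ z ^ b • A ∨ z ^ b • A ⊆ z ^ a • A) →
      z ^ d.factorial • A = A := by
    intro a b hab hb hnest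
    obtain ⟨t, rfl⟩ : ∃ t, b = a + t := ⟨b - a, by omega⟩
    have ht : z ^ t • A = A := by
      have hm : z ^ t ∈ M := pow_mem hz t
      rw [pow_add, mul_smul, Set.smul_set_subset_smul_set_iff,
        Set.smul_set_subset_smul_set_iff] at hnest
      rcases hnest with h1 | h1
      · have h2 : (z ^ t)⁻¹ • A ⊆ A := by
          have : (z ^ t)⁻¹ • A ⊆ (z ^ t)⁻¹ • z ^ t • A := Set.smul_set_subset_smul_set_iff.2 h1
          rwa [inv_smul_smul] at this
        have h3 := eq_of_smul_subset h hG hM hA.1 hA.2.1 (inv_mem hm) h2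
        conv_lhs => rw [← h3]
        rw [smul_inv_smul]
      · exact eq_of_smul_subset h hG hM hA.1 hA.2.1 hm h1
    obtain ⟨c, hc⟩ := Nat.dvd_factorial (m := t) (n := d) (by omega) (by omega)
    rw [hc, pow_mul]
    have : ∀ c : ℕ, (z ^ t) ^ c • A = A := by
      intro c
      induction c with
      | zero => simp
      | succ c ih => rw [pow_succ, mul_smul, ht, ih]
    exact this c
  have hnest : z ^ (k : ℕ) • A ⊆ z ^ (l : ℕ) • A ∨ z ^ (l : ℕ) • A ⊆ z ^ (k : ℕ) • A := by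
    rcases (hzA k).nested_or_crossing hY (hzA l) with h1 | h1 | h1
    · exact Or.inl h1
    · exact Or.inr h1
    · exact absurd h1 hn
  rcases lt_or_gt_of_ne hkl with hlt | hlt
  · exact key k l hlt (Nat.lt_succ_iff.1 l.2) hnest
  · exact key l k hlt (Nat.lt_succ_iff.1 k.2) hnest.symm

end

/-- The translates of `Z` by the cosets of `M` in `H`. -/
def cosetSet (M H : Subgroup G) (Z : Set V) (q : H ⧸ M.subgroupOf H) : Set V :=
  {v | ∃ k : H, (k : H ⧸ M.subgroupOf H) = q ∧ ∃ z ∈ Z, v = (k : G) • z}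

lemma cosetSet_mk {M H : Subgroup G} {Z : Set V} (hZ : ∀ k ∈ M, ∀ v ∈ Z, k • v ∈ Z) (k : H) :
    cosetSet M H Z (k : H ⧸ M.subgroupOf H) = (k : G) • Z := by
  ext v
  rw [Set.mem_smul_set_iff_inv_smul_mem]
  constructor
  · rintro ⟨k', hk', z, hz, rfl⟩
    have h1 := QuotientGroup.eq.1 hk'.symm
    rw [Subgroup.mem_subgroupOf] at h1
    have h2 : ((k : G)⁻¹) • (k' : G) • z = ((k⁻¹ * k' : H) : G) • z := by
      rw [← mul_smul]
      rfl
    rw [h2]
    exact hZ _ h1 z hz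
  · intro hv
    exact ⟨k, rfl, _, hv, by rw [smul_inv_smul]⟩

lemma isWeightFamily_cosetSet {M H : Subgroup G} {Z : Set V} (hne : Z.Nonempty)
    (hZ : ∀ k ∈ M, ∀ v ∈ Z, k • v ∈ Z) :
    IsWeightFamily H Z (cosetSet M H Z) ((1 : H) : H ⧸ M.subgroupOf H) := by
  refine ⟨fun q => ?_, ?_, fun g hg => ⟨MulAction.toPerm (⟨g, hg⟩ : H), fun q => ?_⟩⟩
  · obtain ⟨k, rfl⟩ := QuotientGroup.mk_surjective q
    rw [cosetSet_mk hZ]
    exact hne.smul_set
  · rw [cosetSet_mk hZ]
    simp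
  · obtain ⟨k, rfl⟩ := QuotientGroup.mk_surjective q
    rw [cosetSet_mk hZ, ← mul_smul]
    show _ = cosetSet M H Z ((((⟨g, hg⟩ : H) * k : H)) : H ⧸ M.subgroupOf H)
    rw [cosetSet_mk hZ]
    rfl

/-- Elements of overgroups in which `M` has finite index move `Z` a bounded distance, unless
`G` contains `ℤ × ℤ`. -/
theorem exists_uniform_bound (h : IsMedianGraph X) (hG : GeometricAction G X) {M : Subgroup G}
    {Z : Set V} (hM : ConvexCocompactOn X M Z) (hinf : Z.Infinite)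
    (hZ2 : ¬ ∃ φ : Multiplicative (ℤ × ℤ) →* G, Function.Injective φ) :
    ∃ R : ℕ, ∀ H : Subgroup G, M ≤ H → M.relIndex H ≠ 0 → ∀ k ∈ H,
      ∃ z ∈ Z, ∃ z' ∈ Z, X.dist z (k • z') ≤ R := by
  classical
  have hc := h.connected
  obtain ⟨d, hd⟩ := exists_dimLE h hG
  obtain ⟨z, hzM, hzord⟩ := exists_infinite_order h hG hM hinf
  obtain ⟨R₀, hR₀⟩ := exists_chain_bound h hG (z ^ d.factorial) (by
    intro m hm
    rw [← pow_mul]
    exact hzord _ (Nat.mul_pos (Nat.factorial_pos d) hm))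
  refine ⟨2 * (d * R₀), fun H hMH hidx k hk => ?_⟩
  by_contra hfar
  push Not at hfar
  have hfin : Finite (H ⧸ M.subgroupOf H) := by
    have hfi : (M.subgroupOf H).FiniteIndex := ⟨hidx⟩
    exact Subgroup.finite_quotient_of_finiteIndex
  have : Fintype (H ⧸ M.subgroupOf H) := Fintype.ofFinite _
  have hY := isWeightFamily_cosetSet (M := M) (H := H) hM.nonempty hM.smul_mem
  set Y := cosetSet M H Z with hYdef
  -- a large set of heavy halfspaces gives `ℤ × ℤ`
  have hlarge : ∀ 𝓢 : Set (Set V), 𝓢.Finite → (∀ A ∈ 𝓢, Heavy X Z Y A) → d * R₀ < 𝓢.ncard →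
      False := by
    intro 𝓢 h𝓢 hheavy hcard
    obtain ⟨A, hA, hAch⟩ := exists_chain hd R₀ 𝓢 h𝓢 (fun A hA => (hheavy A hA).1)
      (fun A hA B hB => (hheavy A hA).nested_or_crossing hY (hheavy B hB)) hcard
    apply hZ2
    refine hR₀ A (fun i hi => (hheavy _ (hA i hi)).1) hAch fun i hi v => ?_
    have h1 := (hheavy _ (hA i hi)).pow_factorial h hG hM hMH hY hd hzM
    conv_lhs => rw [← h1]
    rw [Set.smul_mem_smul_set_iff]
  have hMk := hM.conj hG hc k
  obtain ⟨p, q, hp, hq⟩ := exists_closest h hM.convex hMk.convex hM.nonempty hMk.nonempty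
  have hpq : 2 * (d * R₀) < X.dist p q := by
    have := hfar p hp.1 (k⁻¹ • q) hq.1
    rwa [smul_inv_smul] at this
  set 𝓣 : Set (Set V) := {A | IsHalfspace X A ∧ p ∉ A ∧ q ∈ A} with h𝓣
  have h𝓣fin : 𝓣.Finite := finite_separating h hG p q
  have h𝓣card : 2 * (d * R₀) < 𝓣.ncard := hpq.trans_le (dist_le_ncard h hG p q)
  have hsep : ∀ A ∈ 𝓣, (∀ v ∈ Z, v ∉ A) ∧ ∀ v ∈ Z, k • v ∈ A := by
    intro A hA
    obtain ⟨h1, h2⟩ := separates_of_closest h hp hq hA.1 hA.2.1 hA.2.2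
    refine ⟨h1, fun v hv => h2 _ ?_⟩
    show k⁻¹ • k • v ∈ Z
    rwa [inv_smul_smul]
  set 𝓣₁ : Set (Set V) := {A | A ∈ 𝓣 ∧ Fintype.card (H ⧸ M.subgroupOf H) ≤ total Y A} with h𝓣₁
  have h𝓣₁sub : 𝓣₁ ⊆ 𝓣 := fun A hA => hA.1
  have hcard₁ : ¬ d * R₀ < 𝓣₁.ncard := by
    intro hcard
    exact hlarge 𝓣₁ (h𝓣fin.subset h𝓣₁sub)
      (fun A hA => ⟨hA.1.1, (hsep A hA.1).1, hA.2⟩) hcard
  have hcard₂ : ¬ d * R₀ < (𝓣 \ 𝓣₁).ncard := by
    intro hcard
    have hinj : Function.Injective (fun A : Set V => k⁻¹ • Aᶜ) := by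
      intro A B hAB
      have h1 : Aᶜ = Bᶜ := smul_left_cancel _ hAB
      exact compl_injective h1
    refine hlarge ((fun A : Set V => k⁻¹ • Aᶜ) '' (𝓣 \ 𝓣₁))
      ((h𝓣fin.subset Set.sdiff_subset).image _) ?_ ?_
    · rintro _ ⟨A, ⟨hA, hA₁⟩, rfl⟩
      refine ⟨isHalfspace_smul hG hc (isHalfspace_compl h hA.1) _, fun v hv hvA => ?_, ?_⟩
      · rw [Set.mem_smul_set_iff_inv_smul_mem, inv_inv] at hvA
        exact hvA ((hsep A hA).2 v hv)
      · rw [hY.total_smul (inv_mem hk)]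
        have h1 := hY.total_compl A
        have h2 : ¬ Fintype.card (H ⧸ M.subgroupOf H) ≤ total Y A := fun h2 => hA₁ ⟨hA, h2⟩
        omega
    · rwa [Set.ncard_image_of_injective _ hinj]
  have h1 := Set.ncard_sdiff_add_ncard_of_subset h𝓣₁sub h𝓣fin
  omega

/-- **Commensurator theorem.** -/
theorem relIndex_commensurator_ne_zero (h : IsMedianGraph X) (hG : GeometricAction G X)
    (hZ2 : ¬ ∃ φ : Multiplicative (ℤ × ℤ) →* G, Function.Injective φ) {M : Subgroup G}
    {Z : Set V} (hM : ConvexCocompactOn X M Z) (hinf : (M : Set G).Infinite) :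
    M.relIndex (Subgroup.Commensurable.commensurator M) ≠ 0 := by
  classical
  have hc := h.connected
  have hZinf := infinite_of_infinite hG hM hinf
  intro hidx
  set C := Subgroup.Commensurable.commensurator M with hC
  obtain ⟨R, hR⟩ := exists_uniform_bound h hG hM hZinf hZ2
  obtain ⟨E, hE, hEc⟩ := exists_finite_cosets hG hc hM R
  have hinfq : Infinite (C ⧸ M.subgroupOf C) := by
    rw [← not_finite_iff_infinite]
    intro hfin
    have : Nat.card (C ⧸ M.subgroupOf C) = 0 := hidx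
    exact Nat.card_pos.ne' this
  obtain ⟨T, hT⟩ := Infinite.exists_subset_card_eq (C ⧸ M.subgroupOf C) (E.ncard + 1)
  let c : C ⧸ M.subgroupOf C → G := fun q => ((Quotient.out q : C) : G)
  have hcC : ∀ q, c q ∈ C := fun q => (Quotient.out q : C).2
  have hcinj : ∀ q q', (c q)⁻¹ * c q' ∈ M → q = q' := by
    intro q q' hqq'
    rw [← Quotient.out_eq' q, ← Quotient.out_eq' q']
    refine QuotientGroup.eq.2 ?_
    rw [Subgroup.mem_subgroupOf]
    exact hqq'
  set S : Set G := c '' (T : Set (C ⧸ M.subgroupOf C)) with hS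
  have hSfin : S.Finite := T.finite_toSet.image _
  have hSC : ∀ s ∈ S, s ∈ C := by
    rintro _ ⟨q, _, rfl⟩
    exact hcC q
  set H := Subgroup.closure ((M : Set G) ∪ S) with hH
  have hHC : H ≤ C := by
    rw [hH, Subgroup.closure_le]
    rintro s (hs | hs)
    · exact le_commensurator M hs
    · exact hSC s hs
  have hMH : M ≤ H := fun m hm => Subgroup.subset_closure (Or.inl hm)
  by_cases hHidx : M.relIndex H = 0
  · exact hZ2 (z2_of_infinite_index h hG hM hZinf hSfin hSC hHidx)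
  · have hcov : ∀ k ∈ H, ∃ e ∈ E, e⁻¹ * k ∈ M := fun k hk => hEc k (hHC hk) (hR H hMH hHidx k hk)
    choose e heE he using fun q : C ⧸ M.subgroupOf C => (fun hq : q ∈ T => hcov (c q)
      (Subgroup.subset_closure (Or.inr ⟨q, hq, rfl⟩)) :
        q ∈ T → ∃ e ∈ E, e⁻¹ * c q ∈ M)
    obtain ⟨q, hq, q', hq', hne, heq⟩ := Finset.exists_ne_map_eq_of_card_lt_of_maps_to
      (s := T) (t := hE.toFinset) (f := fun q => if hq : q ∈ T then e q hq else 1) (by
        rw [← Set.ncard_eq_toFinset_card _ hE, hT]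
        exact Nat.lt_succ_self _) (by
        intro q hq
        rw [Finset.mem_coe] at hq
        rw [Finset.mem_coe, Set.Finite.mem_toFinset]
        simp only [dif_pos hq]
        exact heE q hq)
    simp only [dif_pos hq, dif_pos hq'] at heq
    apply hne
    apply hcinj
    have h1 := he q hq
    have h2 := he q' hq'
    rw [← heq] at h2
    have h3 := mul_mem (inv_mem h1) h2
    convert h3 using 1
    group

end Pool.Agent.Lib.MP_140312_al_Comm
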