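import Pool.Agent.Lib.MP_140312_al_Comm.Coarse

/-!
# Finitely generated overgroups of infinite index in the commensurator
-/

namespace Pool.Agent.Lib.MP_140312_al_Comm

open scoped Pointwise

open Pool.Agent.Lib.MP_140312_al Pool.Agent.Lib.MP_140312_al_Chain

variable {V : Type*} {G : Type*} [Group G] [MulAction G V] {X : SimpleGraph V}

/-- A subgroup covered by finitely many cosets of `M`. -/
lemma relIndex_ne_zero_of_cover {M H : Subgroup G} {E : Set G} (hE : E.Finite)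
    (hcov : ∀ k ∈ H, ∃ e ∈ E, e⁻¹ * k ∈ M) : M.relIndex H ≠ 0 := by
  classical
  have : Finite E := hE
  choose e heE he using fun q : H ⧸ M.subgroupOf H => hcov _ (Quotient.out q : H).2
  have hinj : Function.Injective (fun q : H ⧸ M.subgroupOf H => (⟨e q, heE q⟩ : E)) := by
    intro q q' hqq'
    have h1 : e q = e q' := congrArg Subtype.val hqq'
    rw [← Quotient.out_eq' q, ← Quotient.out_eq' q']
    refine QuotientGroup.eq.2 ?_
    rw [Subgroup.mem_subgroupOf]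
    have h2 := he q
    have h3 := he q'
    rw [h1] at h2
    have h4 := mul_mem (inv_mem h2) h3
    convert h4 using 1
    show ((Quotient.out q : H) : G)⁻¹ * ((Quotient.out q' : H) : G) = _
    group
  have : Finite (H ⧸ M.subgroupOf H) := Finite.of_injective _ hinj
  show Nat.card (H ⧸ M.subgroupOf H) ≠ 0
  exact Nat.card_pos.ne'

/-- Halfspaces containing `q` but not `p` are pairwise nested or crossing. -/
lemma nested_or_crossing {A B : Set V} {p q : V} (hpA : p ∉ A) (hpB : p ∉ B) (hqA : q ∈ A)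
    (hqB : q ∈ B) : A ⊆ B ∨ B ⊆ A ∨ Crossing A B := by
  by_cases h1 : A ⊆ B
  · exact Or.inl h1
  · by_cases h2 : B ⊆ A
    · exact Or.inr (Or.inl h2)
    · rw [Set.not_subset] at h1 h2
      obtain ⟨a, ha, ha'⟩ := h1
      obtain ⟨b, hb, hb'⟩ := h2
      exact Or.inr (Or.inr ⟨⟨q, hqA, hqB⟩, ⟨a, ha, ha'⟩, ⟨b, hb', hb⟩, ⟨p, hpA, hpB⟩⟩)

/-- If `M` has infinite index in a finitely generated (over `M`) subgroup of its commensurator,
then `G` contains `ℤ × ℤ`. -/
theorem z2_of_infinite_index (h : IsMedianGraph X) (hG : GeometricAction G X) {M : Subgroup G}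
    {Z : Set V} (hM : ConvexCocompactOn X M Z) (hinf : Z.Infinite) {S : Set G} (hS : S.Finite)
    (hSC : ∀ s ∈ S, s ∈ Subgroup.Commensurable.commensurator M)
    (hidx : M.relIndex (Subgroup.closure ((M : Set G) ∪ S)) = 0) :
    ∃ φ : Multiplicative (ℤ × ℤ) →* G, Function.Injective φ := by
  classical
  have hc := h.connected
  set H := Subgroup.closure ((M : Set G) ∪ S) with hH
  have hHC : H ≤ Subgroup.Commensurable.commensurator M := by
    rw [hH, Subgroup.closure_le]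
    rintro s (hs | hs)
    · exact le_commensurator M hs
    · exact hSC s hs
  obtain ⟨D, hD⟩ := exists_translate hG hc hM hS hSC
  have hnear := finite_near h hG hM D
  set 𝓑 := {A | IsHalfspace X A ∧ (commonStab G {A}).relIndex M ≠ 0 ∧
      ∃ v ∈ Z, v ∉ A ∧ ∃ u ∈ A, X.dist v u ≤ D} with h𝓑
  obtain ⟨d, hd⟩ := exists_dimLE h hG
  obtain ⟨E, hE, hEc⟩ := exists_finite_cosets hG hc hM (d * 𝓑.ncard)
  obtain ⟨k, hk, hfar⟩ : ∃ k ∈ H, ∀ z ∈ Z, ∀ z' ∈ Z, d * 𝓑.ncard < X.dist z (k • z') := by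
    by_contra hcon
    push Not at hcon
    exact relIndex_ne_zero_of_cover hE (fun k hk => hEc k (hHC hk) (hcon k hk)) hidx
  have hMk := hM.conj hG hc k
  obtain ⟨p, q, hp, hq⟩ := exists_closest h hM.convex hMk.convex hM.nonempty hMk.nonempty
  have hpq : d * 𝓑.ncard < X.dist p q := by
    have := hfar p hp.1 (k⁻¹ • q) hq.1
    rwa [smul_inv_smul] at this
  obtain ⟨A, hA, hAch⟩ := exists_chain hd 𝓑.ncard {A | IsHalfspace X A ∧ p ∉ A ∧ q ∈ A}
    (finite_separating h hG p q) (fun A hA => hA.1)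
    (fun A hA B hB => nested_or_crossing hA.2.1 hB.2.1 hA.2.2 hB.2.2)
    (hpq.trans_le (dist_le_ncard h hG p q))
  have hsep : ∀ i ≤ 𝓑.ncard, (∀ v ∈ Z, v ∉ A i) ∧ ∀ v ∈ Z, k • v ∈ A i := by
    intro i hi
    obtain ⟨h1, h2⟩ := separates_of_closest h hp hq (hA i hi).1 (hA i hi).2.1 (hA i hi).2.2
    refine ⟨h1, fun v hv => h2 _ ?_⟩
    show k⁻¹ • k • v ∈ Z
    rwa [inv_smul_smul]
  have hidxA : ∀ i ≤ 𝓑.ncard, (commonStab G {A i}).relIndex M ≠ 0 := fun i hi =>
    relIndex_of_separating h hG hM (hHC hk) (hA i hi).1 (hsep i hi).1 (hsep i hi).2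
  have hg : ∀ i, ∃ g : G, i ≤ 𝓑.ncard → g ∈ H ∧ g⁻¹ • A i ∈ 𝓑 := by
    intro i
    by_cases hi : i ≤ 𝓑.ncard
    · obtain ⟨z, hz⟩ := hM.nonempty
      obtain ⟨g, hg, hgZ, v, hv, u, hu, hd⟩ := hD k hk (A i) (hsep i hi).1
        ⟨z, hz, (hsep i hi).2 z hz⟩
      refine ⟨g, fun _ => ⟨hg, isHalfspace_smul hG hc (hA i hi).1 _, ?_, v, hv, ?_, u, ?_, hd⟩⟩
      · exact relIndex_commonStab_smul (inv_mem (hHC hg)) (hidxA i hi) fun v => by
          rw [Set.smul_mem_smul_set_iff]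
      · rw [Set.mem_smul_set_iff_inv_smul_mem, inv_inv]
        exact hgZ v hv
      · rw [Set.mem_smul_set_iff_inv_smul_mem, inv_inv]
        exact hu
    · exact ⟨1, fun h => absurd h hi⟩
  choose g hg using hg
  obtain ⟨i₁, hi₁, i₂, hi₂, hne, heq⟩ := Finset.exists_ne_map_eq_of_card_lt_of_maps_to
    (s := Finset.range (𝓑.ncard + 1)) (t := hnear.toFinset) (f := fun i => (g i)⁻¹ • A i) (by
      rw [← Set.ncard_eq_toFinset_card _ hnear, Finset.card_range]
      exact Nat.lt_succ_self _) (by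
      intro i hi
      rw [Finset.mem_coe, Finset.mem_range] at hi
      rw [Finset.mem_coe, Set.Finite.mem_toFinset]
      exact (hg i (by omega)).2)
  obtain ⟨i, j, hij, hj, heq⟩ : ∃ i j, i < j ∧ j ≤ 𝓑.ncard ∧ (g i)⁻¹ • A i = (g j)⁻¹ • A j := by
    rw [Finset.mem_range] at hi₁ hi₂
    rcases lt_or_gt_of_ne hne with hlt | hlt
    · exact ⟨i₁, i₂, hlt, by omega, heq⟩
    · exact ⟨i₂, i₁, hlt, by omega, heq.symm⟩
  have hγ : (g j * (g i)⁻¹) • A i = A j := by
    rw [mul_smul, heq, smul_inv_smul]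
  have hγmem : ∀ v, (g j * (g i)⁻¹) • v ∈ A j ↔ v ∈ A i := by
    intro v
    conv_lhs => rw [← hγ]
    rw [Set.smul_mem_smul_set_iff]
  obtain ⟨hsub, hne'⟩ := hAch i j hij hj
  obtain ⟨v₀, hv₀, hv₀'⟩ : ∃ v₀ ∈ A i, v₀ ∉ A j := by
    by_contra hcon
    push Not at hcon
    exact hne' (hsub.antisymm hcon)
  refine z2_of_skewer h hG hM hinf (g := g j * (g i)⁻¹) ?_ (hA i (by omega)).1
    (hidxA i (by omega)) (fun v hv => hsub ((hγmem v).2 hv)) hv₀ ?_
  · exact hHC (mul_mem (hg j hj).1 (inv_mem (hg i (by omega)).1))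
  · rwa [← hγmem, smul_inv_smul]

end Pool.Agent.Lib.MP_140312_al_Comm
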