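import Pool.Agent.Lib.MP_140312_al_Comm.FiniteIndex

/-!
# An infinite convex cocompact subgroup of infinite index in its commensurator gives `ℤ × ℤ`
-/

namespace Pool.Agent.Lib.MP_140312_al_Comm

open Pool.Agent.Lib.MP_140312_al

variable {V : Type*} {G : Type*} [Group G] [MulAction G V] {X : SimpleGraph V}

theorem main (hX : IsMedianGraph X) (hG : GeometricAction G X) (M : Subgroup G)
    (hM : (M : Set G).Infinite) (Z : Set V) (hMZ : ConvexCocompactOn X M Z)
    (hind : M.relIndex (Subgroup.Commensurable.commensurator M) = 0) :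
    ∃ φ : Multiplicative (ℤ × ℤ) →* G, Function.Injective φ := by
  by_contra hcon
  exact relIndex_commensurator_ne_zero hX hG hcon hMZ hM hind

end Pool.Agent.Lib.MP_140312_al_Comm
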