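import Pool.Agent.Lib.MP_140312_al_Comm.Shift

/-!
# Rays in convex cocompact sets, and the skewering criterion
-/

open Filter

namespace Pool.Agent.Lib.MP_140312_al_Comm

open scoped Pointwise

open Pool.Agent.Lib.MP_140312_al Pool.Agent.Lib.MP_140312_al_Chain

variable {V : Type*} {G : Type*} [Group G] [MulAction G V] {X : SimpleGraph V}

/-- A geodesic ray. -/
def IsRay (X : SimpleGraph V) (r : ℕ → V) : Prop :=
  ∀ i j : ℕ, X.dist (r i) (r j) = ((i : ℤ) - j).natAbs

lemma geodesic_dist (hc : X.Connected) {a b : V} {u : ℕ → V} (hu0 : u 0 = a)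
    (hu1 : u (X.dist a b) = b) (hu : ∀ i, i < X.dist a b → X.Adj (u i) (u (i + 1))) {i j : ℕ}
    (hi : i ≤ X.dist a b) (hj : j ≤ X.dist a b) :
    X.dist (u i) (u j) = ((i : ℤ) - j).natAbs := by
  have hle : ∀ i j, i ≤ j → j ≤ X.dist a b → X.dist (u i) (u j) ≤ j - i := by
    intro i j hij hj
    induction j, hij using Nat.le_induction with
    | base => simp
    | succ j hij ih =>
      have h1 := ih (by omega)
      have h2 := SimpleGraph.dist_eq_one_iff_adj.2 (hu j (by omega))
      have h3 : X.dist (u i) (u (j + 1)) ≤ X.dist (u i) (u j) + X.dist (u j) (u (j + 1)) :=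
        hc.dist_triangle
      omega
  have key : ∀ i j, i ≤ j → j ≤ X.dist a b → X.dist (u i) (u j) = j - i := by
    intro i j hij hj
    have h1 := hle i j hij hj
    have h2 := hle 0 i (Nat.zero_le _) (hij.trans hj)
    have h3 := hle j _ hj le_rfl
    have h4 : X.dist (u 0) (u (X.dist a b)) ≤ X.dist (u 0) (u i) + X.dist (u i) (u (X.dist a b)) :=
      hc.dist_triangle
    have h5 : X.dist (u i) (u (X.dist a b)) ≤ X.dist (u i) (u j) + X.dist (u j) (u (X.dist a b)) :=
      hc.dist_triangle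
    have h6 : X.dist (u 0) (u (X.dist a b)) = X.dist a b := by rw [hu0, hu1]
    omega
  rcases le_total i j with hij | hij
  · rw [key i j hij hj]
    omega
  · rw [SimpleGraph.dist_comm, key j i hij hi]
    omega

lemma exists_ray (hG : GeometricAction G X) (hc : X.Connected) {Z : Set V} (hZ : GConvex X Z)
    (hinf : Z.Infinite) : ∃ r, IsRay X r ∧ ∀ i, r i ∈ Z := by
  obtain ⟨z, hz⟩ := hinf.nonempty
  have hfar : ∀ n : ℕ, ∃ v ∈ Z, n ≤ X.dist z v := by
    intro n
    by_contra hcon
    push Not at hcon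
    exact hinf ((ball_finite hG hc z n).subset fun v hv => (hcon v hv).le)
  choose v hvZ hv using hfar
  choose u hu0 hu1 hu using fun n => exists_geodesic hc z (v n)
  have hdist : ∀ n i j, i ≤ n → j ≤ n → X.dist (u n i) (u n j) = ((i : ℤ) - j).natAbs :=
    fun n i j hi hj => geodesic_dist hc (hu0 n) (hu1 n) (hu n) (hi.trans (hv n)) (hj.trans (hv n))
  have hmem : ∀ n i, i ≤ n → u n i ∈ Z := by
    intro n i hi
    refine hZ z hz (v n) (hvZ n) _ ?_
    have h1 := geodesic_dist hc (hu0 n) (hu1 n) (hu n) (Nat.zero_le _) (hi.trans (hv n))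
    have h2 := geodesic_dist hc (hu0 n) (hu1 n) (hu n) (hi.trans (hv n)) le_rfl
    rw [hu0] at h1
    rw [hu1] at h2
    have := hv n
    omega
  obtain ⟨r, hr⟩ := ultralimit u (fun i => ⟨_, ball_finite hG hc z i, by
    filter_upwards [eventually_ge i] with n hn
    show X.dist z (u n i) ≤ i
    have := hdist n 0 i (Nat.zero_le _) hn
    rw [hu0] at this
    omega⟩)
  refine ⟨r, fun i j => ?_, fun i => ?_⟩
  · obtain ⟨n, h1, h2, h3⟩ := ((hr i).and ((hr j).and (eventually_ge (i + j)))).exists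
    rw [← h1, ← h2]
    exact hdist n i j (by omega) (by omega)
  · obtain ⟨n, h1, h2⟩ := ((hr i).and (eventually_ge i)).exists
    rw [← h1]
    exact hmem n i h2

/-- The halfspace entered by the `i`-th edge of a ray. -/
def rayHalf (X : SimpleGraph V) (r : ℕ → V) (i : ℕ) : Set V := halfspace X (r (i + 1)) (r i)

lemma mem_rayHalf {r : ℕ → V} (hr : IsRay X r) (i j : ℕ) : r j ∈ rayHalf X r i ↔ i < j := by
  show X.dist _ _ < X.dist _ _ ↔ _
  rw [hr, hr]
  omega

lemma adj_ray {r : ℕ → V} (hr : IsRay X r) (i : ℕ) : X.Adj (r (i + 1)) (r i) := by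
  rw [← SimpleGraph.dist_eq_one_iff_adj, hr]
  omega

lemma rayHalf_subset {r : ℕ → V} (hr : IsRay X r) {i i' : ℕ} (hii' : i < i')
    (hn : ¬ Crossing (rayHalf X r i) (rayHalf X r i')) : rayHalf X r i' ⊆ rayHalf X r i := by
  by_contra hcon
  rw [Set.not_subset] at hcon
  obtain ⟨v, hv1, hv2⟩ := hcon
  apply hn
  refine ⟨⟨r (i' + 1), ?_, ?_⟩, ⟨r (i + 1), ?_, ?_⟩, ⟨v, hv2, hv1⟩, ⟨r i, ?_, ?_⟩⟩
  · rw [mem_rayHalf hr]; omega
  · rw [mem_rayHalf hr]; omega
  · rw [mem_rayHalf hr]; omega
  · rw [Set.mem_compl_iff, mem_rayHalf hr]; omega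
  · rw [Set.mem_compl_iff, mem_rayHalf hr]; omega
  · rw [Set.mem_compl_iff, mem_rayHalf hr]; omega

/-- Pigeonhole principle relative to a convex cocompact subgroup. -/
lemma ConvexCocompactOn.pigeonhole (hG : GeometricAction G X) (hc : X.Connected)
    {M : Subgroup G} {Z : Set V} (hM : ConvexCocompactOn X M Z) {κ : Type*} [Finite κ]
    (a₀ : κ) (R : ℕ) (S : Set ℕ) (hS : S.Infinite) (c : ℕ → κ → V) (hcZ : ∀ k, c k a₀ ∈ Z)
    (hcR : ∀ k a, X.dist (c k a₀) (c k a) ≤ R) :
    ∃ T ⊆ S, T.Infinite ∧ ∀ k ∈ T, ∀ l ∈ T, ∃ g ∈ M, ∀ a, g • c k a = c l a := by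
  classical
  obtain ⟨D, hD, hcov⟩ := hM.cocompact
  set B : Set V := ⋃ x ∈ D, {y | X.dist x y ≤ R} with hB
  have hBf : B.Finite := hD.biUnion fun x _ => ball_finite hG hc x R
  have : Finite B := hBf
  have : Finite (κ → B) := inferInstance
  choose g hgM hg using fun k => hcov (c k a₀) (hcZ k)
  have hmem : ∀ k a, g k • c k a ∈ B := by
    intro k a
    simp only [hB, Set.mem_iUnion]
    refine ⟨g k • c k a₀, hg k, ?_⟩
    show X.dist _ _ ≤ R
    rw [dist_smul hG hc]
    exact hcR k a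
  let φ : S → (κ → B) := fun k a => ⟨g k • c k a, hmem k a⟩
  have : Infinite S := hS.to_subtype
  obtain ⟨y, hy⟩ := Finite.exists_infinite_fiber φ
  refine ⟨Subtype.val '' (φ ⁻¹' {y}), ?_, ?_, ?_⟩
  · rintro _ ⟨k, _, rfl⟩
    exact k.2
  · exact (Set.infinite_coe_iff.1 hy).image Subtype.val_injective.injOn
  · rintro _ ⟨k, hk, rfl⟩ _ ⟨l, hl, rfl⟩
    refine ⟨(g l)⁻¹ * g k, mul_mem (inv_mem (hgM l)) (hgM k), fun a => ?_⟩
    have h1 : φ k = φ l := by
      rw [show φ k = y from hk, show φ l = y from hl]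
    have := congrArg Subtype.val (congrFun h1 a)
    simp only [φ] at this
    rw [mul_smul, this, inv_smul_smul]

/-- Gates of adjacent points differ only if the hyperplane crosses the convex set. -/
lemma crosses_of_gates_ne (h : IsMedianGraph X) {Z : Set V} {x y p q : V} (hxy : X.Adj y x)
    (hp : IsGate X Z x p) (hq : IsGate X Z y q) (hne : p ≠ q) :
    (Z ∩ halfspace X y x).Nonempty ∧ (Z ∩ (halfspace X y x)ᶜ).Nonempty := by
  constructor
  · by_contra hcon
    apply hne
    have hmem : ∀ z ∈ Z, z ∉ halfspace X y x := fun z hz hz' => hcon ⟨z, hz, hz'⟩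
    have hd : ∀ z ∈ Z, X.dist y z = X.dist x z + 1 := by
      intro z hz
      have h1 : ¬ X.dist z y < X.dist z x := hmem z hz
      have h2 := dist_adj_ne h hxy z
      have e1 : X.dist y z = X.dist z y := SimpleGraph.dist_comm
      have e2 : X.dist x z = X.dist z x := SimpleGraph.dist_comm
      omega
    refine hp.unique h ⟨hq.1, fun z hz => ?_⟩
    have h1 := hq.2 z hz
    have h2 := hd z hz
    have h3 := hd q hq.1
    omega
  · by_contra hcon
    apply hne
    have hmem : ∀ z ∈ Z, z ∈ halfspace X y x := fun z hz => by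
      by_contra hz'
      exact hcon ⟨z, hz, hz'⟩
    have hd : ∀ z ∈ Z, X.dist x z = X.dist y z + 1 := by
      intro z hz
      have h1 : X.dist z y < X.dist z x := hmem z hz
      have h2 := dist_adj_ne h hxy z
      have e1 : X.dist y z = X.dist z y := SimpleGraph.dist_comm
      have e2 : X.dist x z = X.dist z x := SimpleGraph.dist_comm
      omega
    refine IsGate.unique h ⟨hp.1, fun z hz => ?_⟩ hq |>.symm ▸ rfl
    have h1 := hp.2 z hz
    have h2 := hd z hz
    have h3 := hd p hp.1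
    omega

/-- Only finitely many hyperplanes of a ray in `Z` fail to cross a convex set close to `Z`. -/
lemma finite_collapse (hc : X.Connected) {Z' : Set V} {r : ℕ → V} (hr : IsRay X r) {ρ : ℕ}
    (hρ : ∀ i, ∃ z' ∈ Z', X.dist (r i) z' ≤ ρ) {e : ℕ → V} (he : ∀ i, IsGate X Z' (r i) (e i))
    (hstep : ∀ i, X.dist (e i) (e (i + 1)) ≤ 1) : {i | e i = e (i + 1)}.Finite := by
  classical
  by_contra hinf
  have hinf' : {i | e i = e (i + 1)}.Infinite := hinf
  obtain ⟨S, hS, hScard⟩ := hinf'.exists_subset_card_eq (2 * ρ + 1)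
  obtain ⟨k, hk⟩ := S.finite_toSet.bddAbove
  have hsub : S ⊆ (Finset.range (k + 1)).filter (fun i => e i = e (i + 1)) := by
    intro i hi
    rw [Finset.mem_filter, Finset.mem_range]
    exact ⟨by have := hk hi; omega, hS hi⟩
  have hcard := Finset.card_le_card hsub
  have hlen : ∀ k, X.dist (e 0) (e k) +
      ((Finset.range k).filter (fun i => e i = e (i + 1))).card ≤ k := by
    intro k
    induction k with
    | zero => simp
    | succ k ih =>
      rw [Finset.range_add_one, Finset.filter_insert]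
      have t1 : X.dist (e 0) (e (k + 1)) ≤ X.dist (e 0) (e k) + X.dist (e k) (e (k + 1)) :=
        hc.dist_triangle
      split_ifs with hk
      · rw [Finset.card_insert_of_notMem (by simp)]
        rw [← hk]
        omega
      · have := hstep k
        omega
  have hnear : ∀ i, X.dist (r i) (e i) ≤ ρ := by
    intro i
    obtain ⟨z', hz', hd⟩ := hρ i
    have := (he i).2 z' hz'
    omega
  have h1 := hlen (k + 1)
  have h2 := hnear 0
  have h3 := hnear (k + 1)
  have h4 := hr 0 (k + 1)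
  have t1 : X.dist (r 0) (r (k + 1)) ≤ X.dist (r 0) (e 0) + X.dist (e 0) (r (k + 1)) :=
    hc.dist_triangle
  have t2 : X.dist (e 0) (r (k + 1)) ≤ X.dist (e 0) (e (k + 1)) + X.dist (e (k + 1)) (r (k + 1)) :=
    hc.dist_triangle
  have e1 : X.dist (e (k + 1)) (r (k + 1)) = X.dist (r (k + 1)) (e (k + 1)) :=
    SimpleGraph.dist_comm
  omega

end Pool.Agent.Lib.MP_140312_al_Comm
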