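import Pool.Agent.Lib.MP_140312_al_Chain.Cyclic
import Pool.Agent.Lib.MP_140312_al_Comm.Defs

/-!
# A commensurating element skewering two transverse hyperplanes gives `ℤ × ℤ`
-/

namespace Pool.Agent.Lib.MP_140312_al_Comm

open scoped Pointwise

open Pool.Agent.Lib.MP_140312_al Pool.Agent.Lib.MP_140312_al_Chain

variable {V : Type*} {G : Type*} [Group G] [MulAction G V] {X : SimpleGraph V}

/-- `g` commensurates `M`: suitable powers of conjugates. -/
lemma conj_mem_map {M : Subgroup G} {g k : G} (hk : k ∈ M) :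
    g * k * g⁻¹ ∈ M.map (MulAut.conj g).toMonoidHom := ⟨k, hk, rfl⟩

lemma ConvexCocompactOn.smul_iff {M : Subgroup G} {Z : Set V} (hM : ConvexCocompactOn X M Z)
    {k : G} (hk : k ∈ M) (v : V) : k • v ∈ Z ↔ v ∈ Z := by
  constructor
  · intro hv
    have := hM.smul_mem k⁻¹ (inv_mem hk) _ hv
    rwa [inv_smul_smul] at this
  · exact hM.smul_mem k hk v

/-- Finite index subgroups act cocompactly as well. -/
lemma ConvexCocompactOn.of_relIndex {M N : Subgroup G} {Z : Set V}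
    (hM : ConvexCocompactOn X M Z) (hN : N.relIndex M ≠ 0) :
    ConvexCocompactOn X (N ⊓ M) Z := by
  refine ⟨hM.nonempty, hM.convex, fun k hk => hM.smul_mem k hk.2, ?_⟩
  obtain ⟨F, hF, hFc⟩ := hM.cocompact
  obtain ⟨S, hS, hSc⟩ := exists_coset_reps hN
  refine ⟨(fun p : G × V => p.1 • p.2) '' (S ×ˢ F), (hS.prod hF).image _, fun v hv => ?_⟩
  obtain ⟨k, hk, hkF⟩ := hFc v hv
  obtain ⟨s, hs, m, hm, hks⟩ := hSc k⁻¹ (inv_mem hk)
  refine ⟨m⁻¹, inv_mem hm, ⟨(s, k • v), ⟨hs, hkF⟩, ?_⟩⟩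
  show s • k • v = m⁻¹ • v
  rw [← mul_smul]
  congr 1
  have h1 : s = m⁻¹ * k⁻¹ := by rw [hks]; group
  rw [h1]
  group

lemma ConvexCocompactOn.conj (hG : GeometricAction G X) (hc : X.Connected) {M : Subgroup G}
    {Z : Set V} (hM : ConvexCocompactOn X M Z) (g : G) :
    ConvexCocompactOn X (M.map (MulAut.conj g).toMonoidHom) {v | g⁻¹ • v ∈ Z} := by
  refine ⟨?_, ?_, ?_, ?_⟩
  · obtain ⟨z, hz⟩ := hM.nonempty
    exact ⟨g • z, by show g⁻¹ • g • z ∈ Z; rwa [inv_smul_smul]⟩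
  · intro a ha b hb m hm
    refine hM.convex _ ha _ hb _ ?_
    rw [dist_smul hG hc, dist_smul hG hc, dist_smul hG hc]
    exact hm
  · rintro _ ⟨k, hk, rfl⟩ v hv
    show g⁻¹ • (g * k * g⁻¹) • v ∈ Z
    rw [← mul_smul, show g⁻¹ * (g * k * g⁻¹) = k * g⁻¹ by group, mul_smul]
    exact hM.smul_mem k hk _ hv
  · obtain ⟨F, hF, hFc⟩ := hM.cocompact
    refine ⟨(fun v => g • v) '' F, hF.image _, fun v hv => ?_⟩
    obtain ⟨k, hk, hkF⟩ := hFc _ hv
    refine ⟨g * k * g⁻¹, ⟨k, hk, rfl⟩, ⟨k • g⁻¹ • v, hkF, ?_⟩⟩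
    show g • k • g⁻¹ • v = (g * k * g⁻¹) • v
    rw [mul_smul, mul_smul]

/-- The commensurator of `M`: conjugation by `g` maps `M` to a commensurable subgroup. -/
lemma mem_commensurator_iff {M : Subgroup G} {g : G} :
    g ∈ Subgroup.Commensurable.commensurator M ↔
      Subgroup.Commensurable (M.map (MulAut.conj g).toMonoidHom) M := by
  rw [Subgroup.Commensurable.commensurator_mem_iff]
  have : ConjAct.toConjAct g • M = M.map (MulAut.conj g).toMonoidHom := by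
    ext x
    rw [Subgroup.mem_map]
    constructor
    · rintro ⟨k, hk, rfl⟩
      exact ⟨k, hk, rfl⟩
    · rintro ⟨k, hk, rfl⟩
      exact ⟨k, hk, rfl⟩
  rw [this]

/-- Powers of conjugates under commensurating elements. -/
lemma exists_pow_conj_mem {M : Subgroup G} {g : G}
    (hg : g ∈ Subgroup.Commensurable.commensurator M) {k : G} (hk : k ∈ M) :
    ∃ m : ℕ, 0 < m ∧ g * k ^ m * g⁻¹ ∈ M := by
  rw [mem_commensurator_iff] at hg
  obtain ⟨m, hm, _, h1⟩ := Subgroup.exists_pow_mem_of_relIndex_ne_zero hg.2 (conj_mem_map hk)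
  rw [conj_pow] at h1
  exact ⟨m, hm, h1.1⟩

/-- Convex cocompact subsets of commensurable subgroups are at finite distance. -/
lemma exists_dist_bound' (hG : GeometricAction G X) (hc : X.Connected) {Z Z' : Set V}
    {L L' : Subgroup G} (hL : ConvexCocompactOn X L Z) (hL' : ConvexCocompactOn X L' Z')
    (hfi : L'.relIndex L ≠ 0) : ∃ ρ : ℕ, ∀ z ∈ Z, ∃ z' ∈ Z', X.dist z z' ≤ ρ := by
  obtain ⟨F, hF, hFc⟩ := hL.cocompact
  exact exists_dist_bound hG hc hL'.smul_mem hL'.nonempty hF hFc hfi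

/-- **Shift lemma.** An element commensurating a convex cocompact subgroup `M` that skewers a
hyperplane virtually preserved by `M` and a hyperplane skewered by `M` yields `ℤ × ℤ`. -/
lemma z2_of_commensurating (h : IsMedianGraph X) (hG : GeometricAction G X) {M : Subgroup G}
    {Z : Set V} (hM : ConvexCocompactOn X M Z) {g : G}
    (hg : g ∈ Subgroup.Commensurable.commensurator M) {A : Set V} (hA : IsHalfspace X A)
    (hAM : (commonStab G {A}).relIndex M ≠ 0) (hgA : ∀ v ∈ A, g • v ∈ A) {v₀ : V} (hv₀ : v₀ ∈ A)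
    (hv₀' : g⁻¹ • v₀ ∉ A) {q p : V} (hqp : X.Adj q p)
    (hgW : ∀ v ∈ halfspace X q p, g • v ∈ halfspace X q p) (hgq : g⁻¹ • q ∉ halfspace X q p)
    {l : G} (hl : l ∈ M) (hlW : ∀ v ∈ halfspace X q p, l • v ∈ halfspace X q p)
    (hlq : l⁻¹ • q ∉ halfspace X q p) :
    ∃ φ : Multiplicative (ℤ × ℤ) →* G, Function.Injective φ := by
  have hc := h.connected
  set Z' : Set V := {v | g⁻¹ • v ∈ Z} with hZ'
  have hM' : ConvexCocompactOn X (M.map (MulAut.conj g).toMonoidHom) Z' := hM.conj hG hc g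
  have hgZ : ∀ v, g • v ∈ Z' ↔ v ∈ Z := by
    intro v
    show g⁻¹ • g • v ∈ Z ↔ v ∈ Z
    rw [inv_smul_smul]
  have hcomm := mem_commensurator_iff.1 hg
  have hgj : ∀ j : ℕ, g ^ j ∈ Subgroup.Commensurable.commensurator M := fun j => pow_mem hg j
  have hqW : q ∈ halfspace X q p := mem_halfspace_left h hqp
  have hlpow : ∀ (m : ℕ) v, v ∈ halfspace X q p → l ^ m • v ∈ halfspace X q p := by
    intro m
    induction m with
    | zero => intro v hv; simpa using hv
    | succ m ih => intro v hv; rw [pow_succ, mul_smul]; exact ih _ (hlW v hv)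
  have hgpow : ∀ (m : ℕ) v, v ∈ halfspace X q p → g ^ m • v ∈ halfspace X q p := by
    intro m
    induction m with
    | zero => intro v hv; simpa using hv
    | succ m ih => intro v hv; rw [pow_succ, mul_smul]; exact ih _ (hgW v hv)
  -- the hyperplanes `g ^ j W` cross `Z`
  have hcross : ∀ j : ℕ, (Z ∩ halfspace X (g ^ j • q) (g ^ j • p)).Nonempty ∧
      (Z ∩ (halfspace X (g ^ j • q) (g ^ j • p))ᶜ).Nonempty := by
    intro j
    obtain ⟨m, hm, hmL⟩ := exists_pow_conj_mem (hgj j) hl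
    have hadj : X.Adj (g ^ j • q) (g ^ j • p) := (hG.adj_iff _ _ _).2 hqp
    have hu : ∀ v : V, (g ^ j * l ^ m * (g ^ j)⁻¹) • (g ^ j • v) = g ^ j • l ^ m • v := by
      intro v
      rw [← mul_smul, ← mul_smul]
      congr 1
      group
    have hu' : ∀ v : V, (g ^ j * l ^ m * (g ^ j)⁻¹)⁻¹ • (g ^ j • v) = g ^ j • (l ^ m)⁻¹ • v := by
      intro v
      rw [← mul_smul, ← mul_smul]
      congr 1
      group
    apply crosses_of_skewer h hG hadj (u := g ^ j * l ^ m * (g ^ j)⁻¹) (v₁ := g ^ j • q)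
    · intro v hv
      obtain ⟨v, rfl⟩ : ∃ v', v = g ^ j • v' := ⟨(g ^ j)⁻¹ • v, by rw [smul_inv_smul]⟩
      rw [smul_mem_halfspace hG hc] at hv
      rw [hu, smul_mem_halfspace hG hc]
      exact hlpow m v hv
    · rw [smul_mem_halfspace hG hc]
      exact hqW
    · rw [hu', smul_mem_halfspace hG hc]
      intro hcon
      apply hlq
      have h1 := hlpow (m - 1) _ hcon
      rw [← mul_smul] at h1
      convert h1 using 2
      obtain ⟨m', rfl⟩ : ∃ m', m = m' + 1 := ⟨m - 1, by omega⟩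
      rw [Nat.add_sub_cancel, pow_succ']
      group
    · exact hM.nonempty
    · exact fun v => hM.smul_iff hmL v
  -- gates
  choose z hz using fun j : ℕ => exists_gate h hM.convex hM.nonempty (g ^ j • p)
  choose w hw using fun j : ℕ => exists_gate h hM.convex hM.nonempty (g ^ j • q)
  have hwz : ∀ j, X.Adj (w j) (z j) ∧
      halfspace X (w j) (z j) = halfspace X (g ^ j • q) (g ^ j • p) := fun j =>
    gate_edge h ((hG.adj_iff _ _ _).2 hqp) (hw j) (hz j) (hcross j).1 (hcross j).2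
  -- edges dual to `A` near `Z`
  obtain ⟨x, y, hxy, hAxy⟩ := hA
  obtain ⟨D₁, hD₁⟩ : ∃ D : ℕ, ∀ v ∈ Z, ∃ a b : V, halfspace X a b = A ∧
      X.dist v a ≤ D ∧ X.dist v b ≤ D := by
    obtain ⟨F, hF, hFc⟩ := (hM.of_relIndex hAM).cocompact
    obtain ⟨D, hD⟩ := (hF.image (fun f => X.dist f x + X.dist f y)).bddAbove
    refine ⟨D, fun v hv => ?_⟩
    obtain ⟨k, hk, hkF⟩ := hFc v hv
    have hkA : ∀ u, k⁻¹ • u ∈ A ↔ u ∈ A := fun u =>
      (inv_mem hk.1 : k⁻¹ ∈ commonStab G {A}) A rfl u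
    have h1 : X.dist (k • v) x + X.dist (k • v) y ≤ D := hD ⟨_, hkF, rfl⟩
    refine ⟨k⁻¹ • x, k⁻¹ • y, ?_, ?_, ?_⟩
    · ext u
      obtain ⟨u, rfl⟩ : ∃ u', u = k⁻¹ • u' := ⟨k • u, by rw [inv_smul_smul]⟩
      rw [smul_mem_halfspace hG hc, hkA, hAxy]
    · have : X.dist v (k⁻¹ • x) = X.dist (k • v) x := by
        rw [← dist_smul hG hc k, smul_inv_smul]
      omega
    · have : X.dist v (k⁻¹ • y) = X.dist (k • v) y := by
        rw [← dist_smul hG hc k, smul_inv_smul]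
      omega
  choose a b hab hda hdb using fun j => hD₁ (z j) (hz j).1
  -- the bounded displacement
  obtain ⟨D, hD⟩ : ∃ D : ℕ, ∀ j, X.dist (z j) (g • z j) ≤ D := by
    obtain ⟨ρ₁, hρ₁⟩ := exists_dist_bound' hG hc hM hM' hcomm.1
    obtain ⟨ρ₂, hρ₂⟩ := exists_dist_bound' hG hc hM' hM hcomm.2
    refine ⟨X.dist p (g • p) + 2 * max ρ₁ ρ₂, fun j => ?_⟩
    have hgz : IsGate X Z' (g ^ (j + 1) • p) (g • z j) := by
      have := (hz j).smul hG hc g hgZ
      rwa [← mul_smul, ← pow_succ'] at this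
    obtain ⟨p', hp', hpp'⟩ := hρ₁ _ (hz (j + 1)).1
    obtain ⟨q', hq', hqq'⟩ := hρ₂ _ hgz.1
    have h1 := (hz (j + 1)).hausdorff h hgz hp' (hpp'.trans (le_max_left _ _)) hq'
      (hqq'.trans (le_max_right _ _))
    have h2 := (hz j).lipschitz h (hz (j + 1))
    rw [pow_succ, mul_smul, dist_smul hG hc] at h2
    have h3 : X.dist (z j) (g • z j) ≤ X.dist (z j) (z (j + 1)) + X.dist (z (j + 1)) (g • z j) :=
      hc.dist_triangle
    omega
  -- pigeonhole
  obtain ⟨T, _, hTinf, hT⟩ := pigeonhole_infinite hG hc (κ := Fin 5) 0 (D + D₁ + 1) Set.univ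
    Set.infinite_univ (fun j => ![z j, a j, b j, w j, g • z j]) (by
      intro j i
      fin_cases i
      · simp
      · have := hda j
        show X.dist (z j) (a j) ≤ D + D₁ + 1
        omega
      · have := hdb j
        show X.dist (z j) (b j) ≤ D + D₁ + 1
        omega
      · have := SimpleGraph.dist_eq_one_iff_adj.2 (hwz j).1.symm
        show X.dist (z j) (w j) ≤ D + D₁ + 1
        omega
      · have := hD j
        show X.dist (z j) (g • z j) ≤ D + D₁ + 1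
        omega)
  obtain ⟨j₀, hj₀⟩ := hTinf.nonempty
  have hk : ∀ j, ∃ k : G, j ∈ T → k • z j₀ = z j ∧ k • a j₀ = a j ∧ k • b j₀ = b j ∧
      k • w j₀ = w j ∧ k • g • z j₀ = g • z j := by
    intro j
    by_cases hj : j ∈ T
    · obtain ⟨k, hk⟩ := hT j₀ hj₀ j hj
      exact ⟨k, fun _ => ⟨hk 0, hk 1, hk 2, hk 3, hk 4⟩⟩
    · exact ⟨1, fun h => absurd h hj⟩
  choose k hk using hk
  have hmaps : Set.MapsTo (fun j => g⁻¹ * (k j)⁻¹ * g * k j) T {u : G | u • z j₀ = z j₀} := by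
    intro j hj
    obtain ⟨h1, _, _, _, h4⟩ := hk j hj
    show (g⁻¹ * (k j)⁻¹ * g * k j) • z j₀ = z j₀
    rw [mul_smul, h1, mul_smul, mul_smul, ← h4, inv_smul_smul, inv_smul_smul]
  obtain ⟨j₁, hj₁, j₂, hj₂, hne, heq⟩ :=
    hTinf.exists_ne_map_eq_of_mapsTo hmaps (hG.finite_stabilizer _)
  obtain ⟨i, hi, j, hj, hij, heq⟩ : ∃ i ∈ T, ∃ j ∈ T, i < j ∧
      g⁻¹ * (k i)⁻¹ * g * k i = g⁻¹ * (k j)⁻¹ * g * k j := by
    rcases lt_or_gt_of_ne hne with hlt | hlt
    · exact ⟨j₁, hj₁, j₂, hj₂, hlt, heq⟩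
    · exact ⟨j₂, hj₂, j₁, hj₁, hlt, heq.symm⟩
  obtain ⟨i1, i2, i3, i4, _⟩ := hk i hi
  obtain ⟨j1, j2, j3, j4, _⟩ := hk j hj
  set c := k j * (k i)⁻¹ with hcdef
  have hcz : c • z i = z j := by rw [hcdef, mul_smul, ← i1, inv_smul_smul, j1]
  have hca : c • a i = a j := by rw [hcdef, mul_smul, ← i2, inv_smul_smul, j2]
  have hcb : c • b i = b j := by rw [hcdef, mul_smul, ← i3, inv_smul_smul, j3]
  have hcw : c • w i = w j := by rw [hcdef, mul_smul, ← i4, inv_smul_smul, j4]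
  have hcomm' : c * g = g * c := by
    have h1 : (k i)⁻¹ * g * k i = (k j)⁻¹ * g * k j := by
      have := congrArg (fun u => g * u) heq
      simpa [mul_assoc] using this
    calc c * g = k j * ((k i)⁻¹ * g * k i) * (k i)⁻¹ := by rw [hcdef]; group
      _ = k j * ((k j)⁻¹ * g * k j) * (k i)⁻¹ := by rw [h1]
      _ = g * c := by rw [hcdef]; group
  -- `c` preserves `A`, `g` skewers it
  have hcA' : ∀ v, c • v ∈ A ↔ v ∈ A := by
    intro v
    have h1 := smul_halfspace_iff hG hc c (a i) (b i) (A := A) (by rw [hca, hcb, hab j]) v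
    rw [h1, hab i]
  refine z2_of_commute hcomm' A hcA' hgA v₀ hv₀ hv₀' ?_
  -- `c` has infinite order
  obtain ⟨e, he⟩ : ∃ e, j = i + (e + 1) := ⟨j - i - 1, by omega⟩
  have hcA : ∀ v, c • v ∈ halfspace X (g ^ j • q) (g ^ j • p) ↔
      v ∈ halfspace X (g ^ i • q) (g ^ i • p) := by
    intro v
    have h1 := smul_halfspace_iff hG hc c (w i) (z i)
      (A := halfspace X (g ^ j • q) (g ^ j • p)) (by rw [hcw, hcz, (hwz j).2]) v
    rw [h1, (hwz i).2]
  have hgj' : ∀ x : V, g ^ j • x = g ^ i • g ^ (e + 1) • x := by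
    intro x
    rw [he, pow_add, mul_smul]
  have hsub : ∀ v, v ∈ halfspace X (g ^ j • q) (g ^ j • p) →
      v ∈ halfspace X (g ^ i • q) (g ^ i • p) := by
    intro v hv
    obtain ⟨v, rfl⟩ : ∃ v', v = g ^ j • v' := ⟨(g ^ j)⁻¹ • v, by rw [smul_inv_smul]⟩
    rw [smul_mem_halfspace hG hc] at hv
    rw [hgj', smul_mem_halfspace hG hc]
    exact hgpow _ v hv
  refine infinite_order_of_skewer (A := halfspace X (g ^ i • q) (g ^ i • p)) (v₁ := g ^ i • q)
    (fun v hv => hsub _ ((hcA v).2 hv)) ?_ ?_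
  · rw [smul_mem_halfspace hG hc]
    exact hqW
  · rw [← hcA, smul_inv_smul, hgj', hgj', smul_mem_halfspace hG hc]
    intro h4
    apply hgq
    have h5 : (g ^ (e + 1))⁻¹ • q ∈ halfspace X q p := by
      rw [← smul_mem_halfspace hG hc (g ^ (e + 1)), smul_inv_smul]
      exact h4
    have h6 := hgpow e _ h5
    rw [← mul_smul] at h6
    convert h6 using 2
    rw [pow_succ']
    group

end Pool.Agent.Lib.MP_140312_al_Comm
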